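import Mathlib

/-!
# Concentration of sums: coefficients of powers in the group algebra
-/

set_option autoImplicit false

open Finset

namespace Pool.Agent.Zk50.ZO

/-! ### Central binomial coefficients -/

lemma central_sq (m : ℕ) : (m.centralBinom) ^ 2 * (2 * m + 1) ≤ 16 ^ m := by
  induction m with
  | zero => simp
  | succ m ih =>
    have h1 := Nat.succ_mul_centralBinom_succ m
    have h2 : (m + 1) ^ 2 * ((m + 1).centralBinom ^ 2 * (2 * (m + 1) + 1)) ≤
        (m + 1) ^ 2 * 16 ^ (m + 1) := by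
      calc (m + 1) ^ 2 * ((m + 1).centralBinom ^ 2 * (2 * (m + 1) + 1))
          = ((m + 1) * (m + 1).centralBinom) ^ 2 * (2 * m + 3) := by ring
        _ = (2 * (2 * m + 1) * m.centralBinom) ^ 2 * (2 * m + 3) := by rw [h1]
        _ = (m.centralBinom ^ 2 * (2 * m + 1)) * (4 * (2 * m + 1) * (2 * m + 3)) := by ring
        _ ≤ 16 ^ m * (4 * (2 * m + 1) * (2 * m + 3)) := Nat.mul_le_mul_right _ ih
        _ ≤ 16 ^ m * (16 * (m + 1) ^ 2) := by
          apply Nat.mul_le_mul_left
          nlinarith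
        _ = (m + 1) ^ 2 * 16 ^ (m + 1) := by ring
    exact Nat.le_of_mul_le_mul_left h2 (by positivity)

lemma middle_sq (k : ℕ) : (k.choose (k / 2)) ^ 2 * (k + 1) ≤ 4 ^ k := by
  rcases Nat.even_or_odd' k with ⟨m, rfl | rfl⟩
  · have h1 := central_sq m
    rw [Nat.centralBinom_eq_two_mul_choose] at h1
    rw [Nat.mul_div_cancel_left m (by norm_num)]
    calc _ ≤ 16 ^ m := h1
      _ = 4 ^ (2 * m) := by rw [pow_mul]; norm_num
  · have h1 := central_sq (m + 1)
    have h2 : (m + 1).centralBinom = 2 * (2 * m + 1).choose m := by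
      rw [Nat.centralBinom_eq_two_mul_choose, show 2 * (m + 1) = (2 * m + 1) + 1 by ring,
        Nat.choose_succ_succ, Nat.choose_symm_half]
      ring
    have h3 : (2 * m + 1) / 2 = m := by omega
    rw [h3]
    rw [h2] at h1
    have h4 : 4 * (((2 * m + 1).choose m) ^ 2 * (2 * m + 1 + 1)) ≤ 4 * 4 ^ (2 * m + 1) := by
      calc 4 * (((2 * m + 1).choose m) ^ 2 * (2 * m + 1 + 1))
          ≤ (2 * (2 * m + 1).choose m) ^ 2 * (2 * (m + 1) + 1) := by
            have : (2 * (2 * m + 1).choose m) ^ 2 * (2 * (m + 1) + 1) =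
              4 * (((2 * m + 1).choose m) ^ 2 * (2 * m + 1 + 1)) +
                4 * ((2 * m + 1).choose m) ^ 2 := by ring
            rw [this]
            exact Nat.le_add_right _ _
        _ ≤ 16 ^ (m + 1) := h1
        _ = 4 * 4 ^ (2 * m + 1) := by
          rw [show (16 : ℕ) = 4 ^ 2 by norm_num, ← pow_mul, ← pow_succ']
          congr 1
    exact Nat.le_of_mul_le_mul_left h4 (by norm_num)

/-- The binomial sum. -/
lemma binomial_sum (y n : ℕ) :
    2 * (n + 1) * (∑ k ∈ range (n + 1), n.choose k * y ^ (n - k) * k.choose (k / 2)) ^ 2 ≤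
      (y + 2) ^ (2 * n + 1) := by
  have h1 : (∑ k ∈ range (n + 1), ((n.choose k : ℝ) * y ^ (n - k) * k.choose (k / 2))) ^ 2 ≤
      (∑ k ∈ range (n + 1), (n.choose k : ℝ) * y ^ (n - k) * 2 ^ k) *
      ∑ k ∈ range (n + 1), (n.choose k : ℝ) * y ^ (n - k) * (k.choose (k / 2)) ^ 2 / 2 ^ k := by
    apply Finset.sum_sq_le_sum_mul_sum_of_sq_le_mul
    · intro k _
      positivity
    · intro k _
      positivity
    · intro k _
      refine le_of_eq ?_
      field_simp
  have h2 : ∑ k ∈ range (n + 1), (n.choose k : ℝ) * y ^ (n - k) * 2 ^ k = ((y : ℝ) + 2) ^ n := by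
    rw [add_comm (y : ℝ) 2, add_pow]
    apply Finset.sum_congr rfl
    intro k _
    ring
  have h3 : ∑ k ∈ range (n + 1), (n.choose k : ℝ) * y ^ (n - k) * (k.choose (k / 2)) ^ 2 / 2 ^ k ≤
      ((y : ℝ) + 2) ^ (n + 1) / (2 * (n + 1)) := by
    have h4 : ∀ k ∈ range (n + 1),
        (n.choose k : ℝ) * y ^ (n - k) * (k.choose (k / 2)) ^ 2 / 2 ^ k ≤
        ((n + 1).choose (k + 1) : ℝ) * (y ^ (n + 1 - (k + 1)) * 2 ^ (k + 1)) / (2 * (n + 1)) := by
      intro k _
      have h5 : ((k.choose (k / 2) : ℕ) : ℝ) ^ 2 * (k + 1) ≤ 4 ^ k := by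
        have := middle_sq k
        exact_mod_cast this
      have h6 : ((n : ℝ) + 1) * n.choose k = (n + 1).choose (k + 1) * (k + 1) := by
        exact_mod_cast Nat.add_one_mul_choose_eq n k
      have hk : (0 : ℝ) < k + 1 := by positivity
      have hn : (0 : ℝ) < n + 1 := by positivity
      have h7 : (n.choose k : ℝ) = (n + 1).choose (k + 1) * (k + 1) / (n + 1) := by
        rw [eq_div_iff hn.ne', mul_comm, h6]
      rw [Nat.add_sub_add_right, h7, div_le_div_iff₀ (by positivity) (by positivity)]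
      have h8 : (4 : ℝ) ^ k = 2 ^ k * 2 ^ k := by rw [← mul_pow]; norm_num
      rw [h8] at h5
      have hy : (0 : ℝ) ≤ (y : ℝ) ^ (n - k) := by positivity
      have hc : (0 : ℝ) ≤ ((n + 1).choose (k + 1) : ℝ) := by positivity
      have e1 : ((n + 1).choose (k + 1) : ℝ) * (k + 1) / (n + 1) * y ^ (n - k) *
          (k.choose (k / 2)) ^ 2 * (2 * (n + 1)) =
          (2 * (((n + 1).choose (k + 1) : ℝ) * y ^ (n - k))) *
            ((k.choose (k / 2)) ^ 2 * (k + 1)) := by
        field_simp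
      have e2 : ((n + 1).choose (k + 1) : ℝ) * (y ^ (n - k) * 2 ^ (k + 1)) * 2 ^ k =
          (2 * (((n + 1).choose (k + 1) : ℝ) * y ^ (n - k))) * (2 ^ k * 2 ^ k) := by
        ring
      rw [e1, e2]
      exact mul_le_mul_of_nonneg_left h5 (by positivity)
    refine (Finset.sum_le_sum h4).trans ?_
    rw [← Finset.sum_div]
    apply div_le_div_of_nonneg_right _ (by positivity)
    have h9 := add_pow (2 : ℝ) (y : ℝ) (n + 1)
    rw [Finset.sum_range_succ'] at h9
    rw [add_comm (y : ℝ) 2, h9]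
    have h10 : ∑ k ∈ range (n + 1), (((n + 1).choose (k + 1) : ℕ) : ℝ) *
        ((y : ℝ) ^ (n + 1 - (k + 1)) * 2 ^ (k + 1)) =
        ∑ k ∈ range (n + 1), (2 : ℝ) ^ (k + 1) * (y : ℝ) ^ (n + 1 - (k + 1)) *
          ((n + 1).choose (k + 1) : ℕ) := by
      apply Finset.sum_congr rfl
      intro k _
      ring
    rw [h10]
    have h11 : (0 : ℝ) ≤ (2 : ℝ) ^ 0 * (y : ℝ) ^ (n + 1 - 0) * ((n + 1).choose 0 : ℕ) := by
      positivity
    linarith
  have h4 : (2 * (n + 1) * (∑ k ∈ range (n + 1), (n.choose k : ℝ) * y ^ (n - k) *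
      k.choose (k / 2)) ^ 2) ≤ ((y : ℝ) + 2) ^ (2 * n + 1) := by
    have hpos : (0 : ℝ) ≤ ((y : ℝ) + 2) ^ n := by positivity
    have h5 := h1.trans (mul_le_mul_of_nonneg_left h3 (by rw [h2]; exact hpos))
    rw [h2] at h5
    have hn : (0 : ℝ) < 2 * (n + 1) := by positivity
    have h6 := mul_le_mul_of_nonneg_left h5 hn.le
    refine h6.trans (le_of_eq ?_)
    field_simp
    ring
  exact_mod_cast h4

/-! ### The group algebra -/

variable {A : Type*} [AddCommGroup A]

open AddMonoidAlgebra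

/-- The sum of the coefficients. -/
noncomputable def aug : AddMonoidAlgebra ℕ A →ₐ[ℕ] ℕ := AddMonoidAlgebra.lift ℕ ℕ A 1

lemma aug_single (a : A) (n : ℕ) : aug (single a n) = n := by
  simp [aug]

lemma coeff_single_mul' (a : A) (r : ℕ) (g : AddMonoidAlgebra ℕ A) (x : A) :
    (single a r * g).coeff x = r * g.coeff (x - a) :=
  coeff_single_mul_eq_mul_coeff (x - a) fun m' _ =>
    ⟨fun h => by rw [← h, add_sub_cancel_left], fun h => by rw [h, add_sub_cancel]⟩

lemma coeff_mul_le {g : AddMonoidAlgebra ℕ A} {M : ℕ} (hg : ∀ x, g.coeff x ≤ M)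
    (f : AddMonoidAlgebra ℕ A) (x : A) : (f * g).coeff x ≤ aug f * M := by
  induction f using AddMonoidAlgebra.induction_linear with
  | zero => simp
  | add f f' h h' =>
    rw [add_mul, coeff_add, Finsupp.add_apply, map_add, add_mul]
    exact add_le_add h h'
  | single a r =>
    rw [coeff_single_mul', aug_single]
    exact Nat.mul_le_mul_left _ (hg _)

lemma coeff_le_aug (f : AddMonoidAlgebra ℕ A) (x : A) : f.coeff x ≤ aug f := by
  have h1 : ∀ x, (1 : AddMonoidAlgebra ℕ A).coeff x ≤ 1 := by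
    classical
    intro x
    rw [one_def, coeff_single, Finsupp.single_apply]
    split_ifs <;> simp
  have h2 := coeff_mul_le h1 f x
  rwa [mul_one, mul_one] at h2

/-- The coefficients of the powers of `[α] + [β]`. -/
lemma coeff_two_pow {α β : A} (h : ∀ m : ℤ, m • (α - β) = 0 → m = 0) (k : ℕ) (x : A) :
    ((single α 1 + single β 1 : AddMonoidAlgebra ℕ A) ^ k).coeff x ≤ k.choose (k / 2) := by
  classical
  have h1 : ((single α 1 + single β 1 : AddMonoidAlgebra ℕ A) ^ k).coeff x =
      ∑ m ∈ range (k + 1), if m • α + (k - m) • β = x then k.choose m else 0 := by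
    rw [add_pow, coeff_sum, Finsupp.finsetSum_apply]
    apply Finset.sum_congr rfl
    intro m _
    rw [single_pow, single_pow, single_mul_single, one_pow, one_pow, one_mul, ← nsmul_eq_mul',
      coeff_smul_apply, coeff_single, Finsupp.single_apply]
    split_ifs <;> simp
  rw [h1]
  by_cases hx : ∃ m ∈ range (k + 1), m • α + (k - m) • β = x
  · obtain ⟨m, hm, hmx⟩ := hx
    rw [Finset.sum_eq_single_of_mem m hm, if_pos hmx]
    · exact Nat.choose_le_middle m k
    · intro m' hm' hne
      rw [if_neg]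
      intro h2
      rw [← hmx] at h2
      have h3 : ((m' : ℤ) - m) • (α - β) = 0 := by
        rw [Finset.mem_range] at hm hm'
        have e1 : ((k - m' : ℕ) : ℤ) = (k : ℤ) - m' := by omega
        have e2 : ((k - m : ℕ) : ℤ) = (k : ℤ) - m := by omega
        have h4 : (m' : ℤ) • α + ((k : ℤ) - m') • β = (m : ℤ) • α + ((k : ℤ) - m) • β := by
          rw [← e1, ← e2]
          simpa using h2
        have h5 : ((m' : ℤ) - m) • (α - β) = ((m' : ℤ) • α + ((k : ℤ) - m') • β) -
            ((m : ℤ) • α + ((k : ℤ) - m) • β) := by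
          module
        rw [h5, h4, sub_self]
      have h6 := h _ h3
      apply hne
      omega
  · push Not at hx
    rw [Finset.sum_eq_zero]
    · exact Nat.zero_le _
    · intro m hm
      exact if_neg (hx m hm)

/-- **Concentration.** -/
theorem concentration {α β : A} (h : ∀ m : ℤ, m • (α - β) = 0 → m = 0)
    (G : AddMonoidAlgebra ℕ A) (n : ℕ) (x : A) :
    2 * (n + 1) * (((single α 1 + single β 1 + G) ^ n).coeff x) ^ 2 ≤
      (aug G + 2) ^ (2 * n + 1) := by
  refine le_trans ?_ (binomial_sum (aug G) n)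
  apply Nat.mul_le_mul_left
  apply Nat.pow_le_pow_left
  rw [add_pow, coeff_sum, Finsupp.finsetSum_apply]
  apply Finset.sum_le_sum
  intro k _
  have h1 := coeff_mul_le (coeff_two_pow h k) (G ^ (n - k) * (n.choose k : ℕ)) x
  have h2 : aug (G ^ (n - k) * ((n.choose k : ℕ) : AddMonoidAlgebra ℕ A)) =
      n.choose k * aug G ^ (n - k) := by
    rw [map_mul, map_pow, map_natCast, mul_comm]
    simp
  rw [h2] at h1
  rw [mul_assoc, mul_comm]
  exact h1

end Pool.Agent.Zk50.ZO
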