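import Pool.Agent.N536.HK.Defs
import Pool.Agent.TH133.PW.KunDefs

/-!
# Direct summands of a motive which are sums of pure motives: definitions
-/

open CategoryTheory AlgebraicGeometry Finset

set_option autoImplicit false

universe u v

namespace Pool.Agent.Zk50.ZO

open Pool.Agent.H914 VarClass Obj WeilCohomology Pool.Agent.TH133.PW Pool.Agent.N103.OC
  Pool.Agent.N536.HK

section Alg

variable {K : Type*} {V : Type*} [Field K] [AddCommGroup V] [Module K V]

/-- `e` is an idempotent linear combination of the operators in `S` which vanishes on all `gr i` with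
`i ≠ m`. -/
def PureSummand (gr : ℕ → Submodule K V) (S : Set (V →ₗ[K] V)) (m : ℕ) (e : Module.End K V) :
    Prop :=
  e ∈ Submodule.span K S ∧ e * e = e ∧ ∀ i, i ≠ m → ∀ x ∈ gr i, e x = 0

/-- The numbers `rank (e 0) + ⋯ + rank (e (N - 1))` for summands `e m` of pure degree `m`. -/
def pureRanks (gr : ℕ → Submodule K V) (N : ℕ) (S : Set (V →ₗ[K] V)) : Set ℕ :=
  {r | ∃ e : ℕ → Module.End K V, (∀ m, PureSummand gr S m (e m)) ∧
    r = ∑ m ∈ range N, Module.finrank K (LinearMap.range (e m))}

end Alg

variable {k : Type u} [Field k] {𝒱 : VarClass k} {ops : CycleOps 𝒱}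

/-- The numbers `∑ rank (e m)` where `e m`, `0 ≤ m ≤ 2 dim Y`, is an idempotent combination, with
coefficients in the coefficient field `K` of the cohomology, of cycles of codimension `dim Y` on
`Y × Y`, which acts as zero on `H^i(Y)` for all `i ≠ m`. -/
def pureRanksOf (W : WeilCohomology.{u, v} ops) (Y : 𝒱.Obj) : Set ℕ :=
  pureRanks (W.gr Y) (2 * Y.dim + 1) (cycleOperators W Y Y.dim)

/-- The dimension of the largest direct summand of the motive of `Y` (for the homological equivalence
given by `W`, with coefficients in `K`) which is a sum of pure motives, that is, of motives whose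
cohomology is concentrated in one degree. -/
noncomputable def pureDim (W : WeilCohomology.{u, v} ops) (Y : 𝒱.Obj) : ℕ :=
  sSup (pureRanksOf W Y)

/-- The Kunneth standard conjecture `C(X)`: all Kunneth components of the diagonal of `X` lie in the
`K`-span of the classes of algebraic cycles; in terms of operators, the projection of `H(X)` onto
`H^i(X)` is a combination of operators given by cycles of codimension `dim X` on `X × X`, for all
`i`. -/
def KunnethC (W : WeilCohomology.{u, v} ops) (X : 𝒱.Obj) : Prop :=
  ∀ i, ProjectorInSpan (W.gr X) i (cycleOperators W X X.dim)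

/-- `c(Y) ≥ t b(Y)`: pure motives make up at least the proportion `t` of the motive of `Y`. -/
def PureShare (W : WeilCohomology.{u, v} ops) (t : ℝ) (Y : 𝒱.Obj) : Prop :=
  t * cohDim W Y ≤ pureDim W Y

end Pool.Agent.Zk50.ZO
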