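import Pool.Agent.Zk50.ZO.Bnd
import Pool.Agent.Zk50.ZO.Cnt
import Pool.Agent.Zk50.ZO.Defs

/-!
# The zero-one law over an algebraically closed coefficient field
-/

set_option autoImplicit false

open CategoryTheory AlgebraicGeometry Finset TensorProduct Module

universe u v

namespace Pool.Agent.Zk50.ZO

open Pool.Agent.H914 VarClass Obj WeilCohomology Pool.Agent.N190.CB Pool.Agent.N103.OC
  Pool.Agent.TH133.PW Pool.Agent.H447 Pool.Agent.N536.SG Pool.Agent.N536.HK Pool.Agent.H578R3

variable {k : Type u} [Field k] {𝒱 : VarClass k} {ops : CycleOps 𝒱}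
  {W : WeilCohomology.{u, v} ops} {X Y Z : 𝒱.Obj}

/-- The generating function of the differences of the degrees and the eigenvalues. -/
noncomputable def gen {ι : Type v} [Fintype ι] (j : ι → ℕ) (μ : ι → W.K)
    (G : ι → Module.End W.K (W.H X)) : AddMonoidAlgebra ℕ W.K :=
  ∑ i, AddMonoidAlgebra.single ((j i : W.K) - μ i) (finrank W.K (LinearMap.range (G i)))

lemma rank_extOp {G : Module.End W.K (W.H Y)} {G' : Module.End W.K (W.H X)} (h : G * G = G)
    (h' : G' * G' = G') : finrank W.K (LinearMap.range (extOp W G G')) =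
      finrank W.K (LinearMap.range G) * finrank W.K (LinearMap.range G') := by
  have h1 : extOp W G G' * extOp W G G' = extOp W G G' := by rw [extOp_mul, h, h']
  have h2 := N536.HK.trace_idem h1
  rw [trace_extOp, N536.HK.trace_idem h, N536.HK.trace_idem h'] at h2
  exact_mod_cast h2.symm

lemma gen_prod {ι ι' : Type v} [Fintype ι] [Fintype ι'] {j : ι → ℕ} {j' : ι' → ℕ} {μ : ι → W.K}
    {μ' : ι' → W.K} {G : ι → Module.End W.K (W.H Y)} {G' : ι' → Module.End W.K (W.H X)}
    (h : ∀ i, G i * G i = G i) (h' : ∀ i, G' i * G' i = G' i) :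
    gen (X := Y.prod X) (fun z : ι × ι' => j z.1 + j' z.2) (fun z => μ z.1 + μ' z.2)
      (fun z => extOp W (G z.1) (G' z.2)) = gen j μ G * gen j' μ' G' := by
  unfold gen
  rw [Finset.sum_mul, Fintype.sum_prod_type]
  apply Finset.sum_congr rfl
  intro i _
  rw [Finset.mul_sum]
  apply Finset.sum_congr rfl
  intro i' _
  rw [AddMonoidAlgebra.single_mul_single, rank_extOp (h i) (h' i')]
  congr 1
  push_cast
  ring

/-- The powers. -/
theorem exists_pw {e l : Module.End W.K (W.H X)} (hL : LamPair W X e l) {ι : Type v} [Fintype ι]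
    {j : ι → ℕ} {μ : ι → W.K} {G : ι → Module.End W.K (W.H X)} (h : Pcs W X e l j μ G) (n : ℕ) :
    ∃ (e' l' : Module.End W.K (W.H (pw X (n + 1)))) (κ : Type v) (_ : Fintype κ) (j' : κ → ℕ)
      (μ' : κ → W.K) (G' : κ → Module.End W.K (W.H (pw X (n + 1)))),
      LamPair W (pw X (n + 1)) e' l' ∧ Pcs W (pw X (n + 1)) e' l' j' μ' G' ∧
        gen j' μ' G' = gen j μ G ^ (n + 1) := by
  induction n with
  | zero =>
    have h0 : gen j μ G = gen j μ G ^ 1 := (pow_one _).symm
    exact ⟨e, l, ι, inferInstance, j, μ, G, hL, h, h0⟩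
  | succ n ih =>
    obtain ⟨e', l', κ, _, j', μ', G', h1, h2, h3⟩ := ih
    refine ⟨extOp W e' e, extOp W l' e + extOp W e' l, κ × ι, inferInstance,
      fun z => j' z.1 + j z.2, fun z => μ' z.1 + μ z.2, fun z => extOp W (G' z.1) (G z.2),
      h1.prod hL, h2.prod h, ?_⟩
    rw [pow_succ, ← h3]
    exact gen_prod h2.idem h.idem

lemma pureSummand_iff {m : ℕ} {e : Module.End W.K (W.H X)} :
    PureSummand (W.gr X) (cycleOperators W X X.dim) m e ↔ Pure W X m e ∧ e * e = e := by
  unfold PureSummand Pure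
  rw [span_cycleOperators0]
  tauto

/-- **The bound for the pure summands.** -/
theorem rank_le_coeff {e l : Module.End W.K (W.H X)} (hL : LamPair W X e l) {ι : Type v}
    [Fintype ι] {j : ι → ℕ} {μ : ι → W.K} {G : ι → Module.End W.K (W.H X)}
    (h : Pcs W X e l j μ G) {r : ℕ} (hr : r ∈ pureRanksOf W X) :
    r ≤ (gen j μ G).coeff 0 := by
  classical
  obtain ⟨p, hp, rfl⟩ := hr
  have h1 : ∀ m, finrank W.K (LinearMap.range (p m)) ≤
      ∑ i, if j i = m ∧ μ i = (m : W.K) then finrank W.K (LinearMap.range (G i)) else 0 := by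
    intro m
    obtain ⟨h2, h3⟩ := pureSummand_iff.1 (hp m)
    have h4 := h.rank_le hL h2 h3
    rwa [Finset.sum_filter] at h4
  refine (Finset.sum_le_sum fun m _ => h1 m).trans ?_
  rw [Finset.sum_comm]
  unfold gen
  rw [AddMonoidAlgebra.coeff_sum, Finsupp.finsetSum_apply]
  apply Finset.sum_le_sum
  intro i _
  rw [AddMonoidAlgebra.coeff_single, Finsupp.single_apply]
  split_ifs with h2
  · rw [sub_eq_zero] at h2
    by_cases h3 : j i ∈ range (2 * X.dim + 1)
    · rw [Finset.sum_eq_single_of_mem (j i) h3]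
      · split_ifs <;> simp
      · intro m _ hm
        exact if_neg fun h4 => hm h4.1.symm
    · rw [Finset.sum_eq_zero]
      · exact Nat.zero_le _
      · intro m hm
        exact if_neg fun h4 => h3 (by rw [h4.1]; exact hm)
  · rw [Finset.sum_eq_zero]
    intro m _
    apply if_neg
    rintro ⟨h4, h5⟩
    apply h2
    rw [h5, h4, sub_self]

lemma aug_gen {e l : Module.End W.K (W.H X)} (hL : LamPair W X e l) {ι : Type v}
    [Fintype ι] {j : ι → ℕ} {μ : ι → W.K} {G : ι → Module.End W.K (W.H X)}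
    (h : Pcs W X e l j μ G) : aug (gen j μ G) = finrank W.K (LinearMap.range e) := by
  unfold gen
  rw [map_sum]
  simp_rw [aug_single]
  have h1 := N536.HK.trace_idem hL.ee
  rw [← h.sum, map_sum, Finset.sum_congr rfl (fun i _ => N536.HK.trace_idem (h.idem i)),
    h.sum] at h1
  exact_mod_cast h1

/-- A nonzero numerically trivial idempotent has rank at least two. -/
lemma two_le_rank {f : Module.End W.K (W.H X)} (hf : f ∈ numTriv W X) (hff : f * f = f)
    (hf0 : f ≠ 0) : 2 ≤ finrank W.K (LinearMap.range f) := by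
  obtain ⟨p0, hp0⟩ : ∃ p, p = evenProj (W.isInternal X) := ⟨_, rfl⟩
  have hpc : p0 * f = f * p0 := by rw [hp0]; exact (kop_degZ hf.1).comm _
  have hpp : p0 * p0 = p0 := by rw [hp0]; exact Sgn.evenProj_idem _
  have h1 : par (W.isInternal X) = p0 - (1 - p0) := by rw [hp0]; exact Sgn.par_eq _
  have h2 := hf.2 1 (KOp.id X)
  rw [one_mul, str_apply, h1, sub_mul, map_sub, sub_eq_zero] at h2
  have i0 : (p0 * f) * (p0 * f) = p0 * f := by
    rw [mul_assoc, ← mul_assoc f, ← hpc, mul_assoc p0 f f, hff, ← mul_assoc, hpp]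
  have hpc' : (1 - p0) * f = f * (1 - p0) := by rw [sub_mul, mul_sub, hpc, one_mul, mul_one]
  have i1 : ((1 - p0) * f) * ((1 - p0) * f) = (1 - p0) * f := by
    rw [mul_assoc, ← mul_assoc f, ← hpc', mul_assoc (1 - p0) f f, hff, ← mul_assoc,
      idem_compl hpp]
  rw [N536.HK.trace_idem i0, N536.HK.trace_idem i1] at h2
  have h3 : finrank W.K (LinearMap.range (p0 * f)) =
      finrank W.K (LinearMap.range ((1 - p0) * f)) := by exact_mod_cast h2
  have o1 : p0 * f * ((1 - p0) * f) = 0 := by
    rw [hpc', hpc, mul_assoc, ← mul_assoc p0, hpc, mul_assoc f p0, mul_sub, mul_one, hpp, sub_self,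
      mul_zero, mul_zero]
  have o2 : (1 - p0) * f * (p0 * f) = 0 := by
    rw [hpc', hpc, mul_assoc, ← mul_assoc (1 - p0), hpc', mul_assoc f (1 - p0), sub_mul, one_mul,
      hpp, sub_self, mul_zero, mul_zero]
  have h4 := rank_add i0 i1 o1 o2
  rw [← add_mul, add_sub_cancel, one_mul, ← h3] at h4
  have h5 : finrank W.K (LinearMap.range f) ≠ 0 := by
    intro h5
    rw [Submodule.finrank_eq_zero, LinearMap.range_eq_bot] at h5
    exact hf0 h5
  omega

/-- If the differences are constant then the Kunneth components are algebraic. -/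
theorem kunneth_of_const {l : Module.End W.K (W.H X)} {ι : Type v}
    [Fintype ι] {j : ι → ℕ} {μ : ι → W.K} {G : ι → Module.End W.K (W.H X)}
    (h : Pcs W X 1 l j μ G) {c : W.K} (hc : ∀ i, G i ≠ 0 → (j i : W.K) - μ i = c) :
    KunnethC W X := by
  classical
  intro m
  refine ⟨proj (W.isInternal X) m, ?_, isProjector_proj W X m⟩
  rw [span_cycleOperators0]
  have h1 : proj (W.isInternal X) m = fib μ G ((m : W.K) - c) := by
    have h2 : proj (W.isInternal X) m = proj (W.isInternal X) m * ∑ i, G i := by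
      rw [h.sum, mul_one]
    rw [h2, Finset.mul_sum]
    unfold fib
    rw [Finset.sum_filter]
    apply Finset.sum_congr rfl
    intro i _
    by_cases hG : G i = 0
    · rw [hG, mul_zero]
      split_ifs <;> rfl
    · have h3 := hc i hG
      by_cases hm : j i = m
      · rw [if_pos (by rw [← h3, ← hm]; ring)]
        apply LinearMap.ext
        intro x
        rw [Module.End.mul_apply, proj_same _ (hm ▸ h.deg i x)]
      · rw [if_neg]
        · apply LinearMap.ext
          intro x
          rw [Module.End.mul_apply, proj_ne _ (h.deg i x) hm, LinearMap.zero_apply]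
        · intro h4
          apply hm
          have h5 : (j i : W.K) = m := by
            rw [h4] at h3
            linear_combination h3
          exact_mod_cast h5
  rw [h1]
  exact h.mem _

/-- Two different values. -/
lemma gen_split {ι : Type v} [Fintype ι] {j : ι → ℕ} {μ : ι → W.K}
    {G : ι → Module.End W.K (W.H X)} {a b : ι} (hab : a ≠ b) (ha : G a ≠ 0) (hb : G b ≠ 0) :
    ∃ R : AddMonoidAlgebra ℕ W.K, gen j μ G = AddMonoidAlgebra.single ((j a : W.K) - μ a) 1 +
      AddMonoidAlgebra.single ((j b : W.K) - μ b) 1 + R := by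
  classical
  have hr : ∀ i, G i ≠ 0 → ∃ s, finrank W.K (LinearMap.range (G i)) = 1 + s := by
    intro i hi
    have h5 : finrank W.K (LinearMap.range (G i)) ≠ 0 := by
      intro h5
      rw [Submodule.finrank_eq_zero, LinearMap.range_eq_bot] at h5
      exact hi h5
    exact ⟨finrank W.K (LinearMap.range (G i)) - 1, by omega⟩
  obtain ⟨s, hs⟩ := hr a ha
  obtain ⟨t, ht⟩ := hr b hb
  have h1 : gen j μ G = AddMonoidAlgebra.single ((j a : W.K) - μ a)
      (finrank W.K (LinearMap.range (G a))) + (AddMonoidAlgebra.single ((j b : W.K) - μ b)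
      (finrank W.K (LinearMap.range (G b))) + ∑ i ∈ (Finset.univ.erase a).erase b,
        AddMonoidAlgebra.single ((j i : W.K) - μ i) (finrank W.K (LinearMap.range (G i)))) := by
    unfold gen
    rw [Finset.add_sum_erase _ (fun i => AddMonoidAlgebra.single ((j i : W.K) - μ i)
      (finrank W.K (LinearMap.range (G i)))) (Finset.mem_erase.2 ⟨Ne.symm hab, Finset.mem_univ b⟩),
      Finset.add_sum_erase _ (fun i => AddMonoidAlgebra.single ((j i : W.K) - μ i)
      (finrank W.K (LinearMap.range (G i)))) (Finset.mem_univ a)]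
  rw [hs, ht, AddMonoidAlgebra.single_add, AddMonoidAlgebra.single_add] at h1
  refine ⟨AddMonoidAlgebra.single ((j a : W.K) - μ a) s +
    (AddMonoidAlgebra.single ((j b : W.K) - μ b) t + ∑ i ∈ (Finset.univ.erase a).erase b,
        AddMonoidAlgebra.single ((j i : W.K) - μ i) (finrank W.K (LinearMap.range (G i)))), ?_⟩
  rw [h1]
  abel

lemma pow_bound (y n : ℕ) : 2 * (n + 1) * (y ^ n) ^ 2 ≤ (y + 2) ^ (2 * n + 1) := by
  have h1 : ∀ m : ℕ, 2 * (m + 1) * y ^ m ≤ (y + 2) ^ (m + 1) := by
    intro m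
    induction m with
    | zero => simp
    | succ m ih =>
      have h2 : y ^ (m + 1) ≤ (y + 2) ^ (m + 1) := Nat.pow_le_pow_left (by omega) _
      calc 2 * (m + 1 + 1) * y ^ (m + 1) = y * (2 * (m + 1) * y ^ m) + 2 * y ^ (m + 1) := by ring
        _ ≤ y * (y + 2) ^ (m + 1) + 2 * (y + 2) ^ (m + 1) := by gcongr
        _ = (y + 2) ^ (m + 1 + 1) := by ring
  have h2 := h1 (2 * n)
  have h3 : 2 * (n + 1) * (y ^ n) ^ 2 ≤ 2 * (2 * n + 1) * y ^ (2 * n) := by
    rw [← pow_mul, mul_comm n 2]
    gcongr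
    omega
  exact h3.trans h2

/-- **The bound**, over an algebraically closed coefficient field. -/
theorem bound_of_not [IsAlgClosed W.K] (hC : ¬ KunnethC W X) (n : ℕ) {r : ℕ}
    (hr : r ∈ pureRanksOf W (pw X (n + 1))) :
    2 * (n + 1 + 1) * r ^ 2 ≤ cohDim W X ^ (2 * (n + 1) + 1) := by
  classical
  obtain ⟨e, l, hL, he⟩ := exists_lamPair W X
  obtain ⟨ι, _, j, μ, G, h⟩ := exists_pcs hL
  obtain ⟨e', l', κ, _, j', μ', G', h1, h2, h3⟩ := exists_pw hL h n
  have h4 := rank_le_coeff h1 h2 hr
  rw [h3] at h4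
  have haug := aug_gen hL h
  have hle : 2 * (n + 1 + 1) * r ^ 2 ≤
      2 * (n + 1 + 1) * (((gen j μ G) ^ (n + 1)).coeff 0) ^ 2 := by gcongr
  refine hle.trans ?_
  rcases he with he | ⟨f, hf, hff, hf0, he⟩
  · subst he
    by_cases hcon : ∃ a b, G a ≠ 0 ∧ G b ≠ 0 ∧ (j a : W.K) - μ a ≠ (j b : W.K) - μ b
    · obtain ⟨a, b, ha, hb, hne⟩ := hcon
      have hab : a ≠ b := by
        rintro rfl
        exact hne rfl
      obtain ⟨R, hR⟩ := gen_split (j := j) (μ := μ) hab ha hb
      have h5 : ∀ m : ℤ, m • (((j a : W.K) - μ a) - ((j b : W.K) - μ b)) = 0 → m = 0 := by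
        intro m hm
        exact (smul_eq_zero.1 hm).resolve_right (sub_ne_zero.2 hne)
      have h6 := concentration h5 R (n + 1) 0
      rw [← hR] at h6
      have h7 : aug R + 2 = cohDim W X := by
        rw [hR, map_add, map_add, aug_single, aug_single] at haug
        have h8 : LinearMap.range (1 : Module.End W.K (W.H X)) = ⊤ := LinearMap.range_id
        rw [h8, finrank_top] at haug
        rw [cohDim, ← haug]
        ring
      rwa [h7] at h6
    · exfalso
      apply hC
      push Not at hcon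
      by_cases hG : ∃ a, G a ≠ 0
      · obtain ⟨a, ha⟩ := hG
        exact kunneth_of_const h (c := (j a : W.K) - μ a) fun i hi => hcon i a hi ha
      · push Not at hG
        exact kunneth_of_const h (c := 0) fun i hi => absurd (hG i) hi
  · have h5 := two_le_rank hf hff hf0
    have h6 := rank_compl hff
    rw [← he] at h6
    have h7 : finrank W.K (LinearMap.range e) + 2 ≤ cohDim W X := by
      rw [cohDim]
      omega
    have h8 : ((gen j μ G) ^ (n + 1)).coeff 0 ≤ finrank W.K (LinearMap.range e) ^ (n + 1) := by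
      refine (coeff_le_aug _ _).trans ?_
      rw [map_pow, haug]
    calc 2 * (n + 1 + 1) * (((gen j μ G) ^ (n + 1)).coeff 0) ^ 2
        ≤ 2 * (n + 1 + 1) * (finrank W.K (LinearMap.range e) ^ (n + 1)) ^ 2 := by gcongr
      _ ≤ (finrank W.K (LinearMap.range e) + 2) ^ (2 * (n + 1) + 1) := pow_bound _ _
      _ ≤ cohDim W X ^ (2 * (n + 1) + 1) := Nat.pow_le_pow_left h7 _

end Pool.Agent.Zk50.ZO
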