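import Pool.Agent.Zk50.ZO.Alg
import Pool.Agent.H914R2.WBase2

/-!
# Extension of the coefficient field
-/

set_option autoImplicit false

open CategoryTheory AlgebraicGeometry Finset TensorProduct Module

universe u v

namespace Pool.Agent.Zk50.ZO

open Pool.Agent.H914 VarClass Obj WeilCohomology Pool.Agent.N190.CB Pool.Agent.N103.OC
  Pool.Agent.TH133.PW Pool.Agent.H447 Pool.Agent.N536.SG Pool.Agent.N536.HK Pool.Agent.H578R3

variable {k : Type u} [Field k] {𝒱 : VarClass k} {ops : CycleOps 𝒱}
  {W : WeilCohomology.{u, v} ops} {X Y Z : 𝒱.Obj} {L : Type v} [Field L] [Algebra W.K L]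

variable (W X L) in
lemma cohDim_base : cohDim (baseW W L) X = cohDim W X := by
  change Module.finrank L (L ⊗[W.K] W.H X) = Module.finrank W.K (W.H X)
  exact Module.finrank_baseChange

section lin

variable {K V : Type*} [Field K] [CharZero K] [AddCommGroup V] [Module K V]
  [FiniteDimensional K V] {L : Type*} [Field L] [Algebra K L]

lemma rank_baseChange {e : Module.End K V} (he : e * e = e) :
    finrank L (LinearMap.range (e.baseChange L : Module.End L (L ⊗[K] V))) =
      finrank K (LinearMap.range e) := by
  have : CharZero L := charZero_of_injective_algebraMap (algebraMap K L).injective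
  have h1 : (e.baseChange L : Module.End L (L ⊗[K] V)) * e.baseChange L = e.baseChange L := by
    have h2 : e ∘ₗ e = e := he
    change (e.baseChange L) ∘ₗ (e.baseChange L) = e.baseChange L
    rw [← LinearMap.baseChange_comp, h2]
  have h3 := N536.HK.trace_idem h1
  rw [LinearMap.trace_baseChange, N536.HK.trace_idem he, map_natCast] at h3
  exact_mod_cast h3.symm

omit [CharZero K] [FiniteDimensional K V] in
lemma mem_span_baseChange {S : Set (Module.End K V)} {T : Module.End K V}
    (h : T ∈ Submodule.span K S) : (T.baseChange L : Module.End L (L ⊗[K] V)) ∈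
      Submodule.span L ((fun F : Module.End K V => (F.baseChange L :
        Module.End L (L ⊗[K] V))) '' S) := by
  induction h using Submodule.span_induction with
  | mem x hx => exact Submodule.subset_span ⟨x, hx, rfl⟩
  | zero =>
    rw [LinearMap.baseChange_zero]
    exact Submodule.zero_mem _
  | add x y _ _ hx hy =>
    rw [LinearMap.baseChange_add]
    exact Submodule.add_mem _ hx hy
  | smul a x _ hx =>
    have h4 : (a • x).baseChange L = (algebraMap K L a) • x.baseChange L := by
      rw [LinearMap.baseChange_smul, algebraMap_smul]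
    rw [h4]
    exact Submodule.smul_mem _ _ hx

omit [CharZero K] in
/-- Descent of linear combinations of operators. -/
lemma mem_span_of_baseChange {S : Set (Module.End K V)} {T : Module.End K V}
    (h : (T.baseChange L : Module.End L (L ⊗[K] V)) ∈
      Submodule.span L ((fun F : Module.End K V => (F.baseChange L :
        Module.End L (L ⊗[K] V))) '' S)) : T ∈ Submodule.span K S := by
  by_contra hT
  obtain ⟨φ, hφT, hφS⟩ := Submodule.exists_dual_map_eq_bot_of_notMem hT inferInstance
  have hφ0 : ∀ F ∈ S, φ F = 0 := by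
    intro F hF
    have h1 : φ F ∈ Submodule.map φ (Submodule.span K S) :=
      Submodule.mem_map_of_mem (Submodule.subset_span hF)
    rw [hφS] at h1
    exact (Submodule.mem_bot _).1 h1
  -- the functional is a trace
  let B : Module.End K V →ₗ[K] Module.Dual K (Module.End K V) :=
    (LinearMap.mul K (Module.End K V)).compr₂ (LinearMap.trace K V)
  have hB : ∀ G F, B G F = LinearMap.trace K V (G * F) := fun _ _ => rfl
  have hinj : Function.Injective B := by
    rw [injective_iff_map_eq_zero]
    intro G hG
    apply eq_zero_of_trace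
    intro F
    rw [← hB, hG, LinearMap.zero_apply]
  have hsurj : Function.Surjective B :=
    (LinearMap.injective_iff_surjective_of_finrank_eq_finrank
      (Subspace.dual_finrank_eq).symm).1 hinj
  obtain ⟨G, hG⟩ := hsurj φ
  let Φ : Module.End L (L ⊗[K] V) →ₗ[L] L :=
    LinearMap.trace L (L ⊗[K] V) ∘ₗ LinearMap.mulLeft L (G.baseChange L)
  have hΦ : ∀ F : Module.End K V, Φ (F.baseChange L) = algebraMap K L (φ F) := by
    intro F
    change LinearMap.trace L (L ⊗[K] V) ((G.baseChange L) ∘ₗ (F.baseChange L)) = _
    rw [← LinearMap.baseChange_comp, LinearMap.trace_baseChange, ← hG]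
    rfl
  have h2 : ∀ x ∈ Submodule.span L ((fun F : Module.End K V => (F.baseChange L :
        Module.End L (L ⊗[K] V))) '' S), Φ x = 0 := by
    intro x hx
    induction hx using Submodule.span_induction with
    | mem x hx =>
      obtain ⟨F, hF, rfl⟩ := hx
      rw [hΦ, hφ0 F hF, map_zero]
    | zero => exact map_zero _
    | add x y _ _ hx hy => rw [map_add, hx, hy, add_zero]
    | smul c x _ hx => rw [map_smul, hx, smul_zero]
  have h3 := h2 _ h
  rw [hΦ] at h3
  exact hφT ((map_eq_zero_iff _ (algebraMap K L).injective).1 h3)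

end lin

lemma corr_base (z : (X.prod X).Cycles) : (baseW W L).corr ((baseW W L).cl (X.prod X) z) =
    ((W.corr (W.cl (X.prod X) z)).baseChange L : L ⊗[W.K] W.H X →ₗ[L] L ⊗[W.K] W.H X) :=
  corrOp_base (L := L) (W.map (fst X X)) (W.push (snd X X)) (W.cl _ z)

lemma cycleOperators_base : cycleOperators (baseW W L) X X.dim =
    (fun F : Module.End W.K (W.H X) => (F.baseChange L :
        Module.End L (L ⊗[W.K] W.H X))) '' (cycleOperators W X X.dim) := by
  ext φ
  constructor
  · rintro ⟨z, hz, rfl⟩
    exact ⟨_, ⟨z, hz, rfl⟩, (corr_base z).symm⟩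
  · rintro ⟨_, ⟨z, hz, rfl⟩, rfl⟩
    exact ⟨z, hz, corr_base z⟩

/-- Descent of the Kunneth conjecture. -/
theorem kunnethC_of_base (h : KunnethC (baseW W L) X) : KunnethC W X := by
  intro i
  obtain ⟨P, hP, hP'⟩ := h i
  refine ⟨proj (W.isInternal X) i, ?_, isProjector_proj W X i⟩
  have h1 : P = ((proj (W.isInternal X) i).baseChange L : L ⊗[W.K] W.H X →ₗ[L] L ⊗[W.K] W.H X) := by
    refine gr_ext ((baseW W L).isInternal X) ?_
    intro j a ha
    have ha' : a ∈ (W.gr X j).baseChange L := ha
    rw [hP' j a ha]
    refine base_induction (P := fun a : L ⊗[W.K] W.H X => (if j = i then a else 0) =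
      ((proj (W.isInternal X) i).baseChange L) a) ?_ ?_ ?_ ha'
    · rw [map_zero, ite_self]
    · intro x y hx hy
      rw [map_add, ← hx, ← hy]
      split_ifs
      · rfl
      · rw [add_zero]
    · intro l a ha
      rw [LinearMap.baseChange_tmul, isProjector_proj W X i j a ha]
      split_ifs
      · rfl
      · rw [TensorProduct.tmul_zero]
  rw [cycleOperators_base, h1] at hP
  exact mem_span_of_baseChange (K := W.K) (V := W.H X) (L := L) hP

/-- Extension of scalars for pure summands. -/
lemma pureSummand_base {m : ℕ} {e : Module.End W.K (W.H X)}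
    (h : PureSummand (W.gr X) (cycleOperators W X X.dim) m e) :
    PureSummand ((baseW W L).gr X) (cycleOperators (baseW W L) X X.dim) m
      (e.baseChange L : L ⊗[W.K] W.H X →ₗ[L] L ⊗[W.K] W.H X) := by
  obtain ⟨h1, h2, h3⟩ := h
  refine ⟨?_, ?_, ?_⟩
  · rw [cycleOperators_base]
    exact mem_span_baseChange (K := W.K) (V := W.H X) (L := L) h1
  · have h4 : e ∘ₗ e = e := h2
    change (e.baseChange L) ∘ₗ (e.baseChange L) = e.baseChange L
    rw [← LinearMap.baseChange_comp, h4]
  · intro i hi x hx
    have hx' : x ∈ (W.gr X i).baseChange L := hx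
    refine base_induction (P := fun a : L ⊗[W.K] W.H X => (e.baseChange L) a = 0) ?_ ?_ ?_ hx'
    · rw [map_zero]
    · intro x y hx hy
      rw [map_add, hx, hy, add_zero]
    · intro l a ha
      rw [LinearMap.baseChange_tmul, h3 i hi a ha, TensorProduct.tmul_zero]

lemma pureRanks_base : pureRanksOf W X ⊆ pureRanksOf (baseW W L) X := by
  rintro r ⟨e, he, rfl⟩
  refine ⟨fun m => ((e m).baseChange L : L ⊗[W.K] W.H X →ₗ[L] L ⊗[W.K] W.H X),
    fun m => pureSummand_base (he m), ?_⟩
  refine Finset.sum_congr rfl ?_
  intro m _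
  exact (rank_baseChange (K := W.K) (V := W.H X) (L := L) (he m).2.1).symm

end Pool.Agent.Zk50.ZO
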