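import Pool.Agent.Zk50.ZO.Pcs

/-!
# The bound for the ranks of pure idempotents
-/

set_option autoImplicit false

open CategoryTheory AlgebraicGeometry Finset TensorProduct Module

universe u v

namespace Pool.Agent.Zk50.ZO

open Pool.Agent.H914 VarClass Obj WeilCohomology Pool.Agent.N190.CB Pool.Agent.N103.OC
  Pool.Agent.TH133.PW Pool.Agent.H447 Pool.Agent.N536.SG Pool.Agent.N536.HK

variable {k : Type u} [Field k] {𝒱 : VarClass k} {ops : CycleOps 𝒱}
  {W : WeilCohomology.{u, v} ops} {X Y Z : 𝒱.Obj}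

/-- Pure operators of degree `m`. -/
def Pure (W : WeilCohomology.{u, v} ops) (X : 𝒱.Obj) (m : ℕ) (p : Module.End W.K (W.H X)) :
    Prop := p ∈ KOp W X X 0 ∧ ∀ i, i ≠ m → ∀ x ∈ W.gr X i, p x = 0

lemma Pure.dgr_mul {m : ℕ} {p : Module.End W.K (W.H X)} (hp : Pure W X m p) :
    dgr W X * p = (m : W.K) • p := by
  apply gr_ext (W.isInternal X)
  intro i x hx
  rw [Module.End.mul_apply, LinearMap.smul_apply]
  by_cases hi : i = m
  · subst hi
    exact dgr_apply (kop_gr hp.1 i hx)
  · rw [hp.2 i hi x hx, map_zero, smul_zero]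

lemma Pure.par_mul {m : ℕ} {p : Module.End W.K (W.H X)} (hp : Pure W X m p) :
    par (W.isInternal X) * p = (-1 : W.K) ^ m • p := by
  apply gr_ext (W.isInternal X)
  intro i x hx
  rw [Module.End.mul_apply, LinearMap.smul_apply]
  by_cases hi : i = m
  · subst hi
    rw [par, scal_apply _ _ (kop_gr hp.1 i hx)]
  · rw [hp.2 i hi x hx, map_zero, smul_zero]

lemma Pure.proj_mul {m : ℕ} {p : Module.End W.K (W.H X)} (hp : Pure W X m p) :
    proj (W.isInternal X) m * p = p := by
  apply gr_ext (W.isInternal X)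
  intro i x hx
  rw [Module.End.mul_apply]
  by_cases hi : i = m
  · subst hi
    exact proj_same _ (kop_gr hp.1 i hx)
  · rw [hp.2 i hi x hx, map_zero]

lemma Pure.mul_right {m : ℕ} {p a : Module.End W.K (W.H X)} (hp : Pure W X m p)
    (ha : a ∈ KOp W X X 0) : Pure W X m (p * a) :=
  ⟨kop_mul hp.1 ha, fun i hi x hx => by
    rw [Module.End.mul_apply]
    exact hp.2 i hi _ (kop_gr ha i hx)⟩

lemma Pure.mul_left {m : ℕ} {p a : Module.End W.K (W.H X)} (hp : Pure W X m p)
    (ha : a ∈ KOp W X X 0) : Pure W X m (a * p) :=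
  ⟨kop_mul ha hp.1, fun i hi x hx => by
    rw [Module.End.mul_apply, hp.2 i hi x hx, map_zero]⟩

/-- On pure operators `l` may be replaced by the degree. -/
lemma Pure.str_l {m : ℕ} {e l p x : Module.End W.K (W.H X)} (hL : LamPair W X e l)
    (hp : Pure W X m p) (hx : x ∈ KOp W X X 0) :
    str W X (p * (l * x)) = (m : W.K) * str W X (p * x) := by
  have hxp : x * p ∈ KOp W X X 0 := kop_mul hx hp.1
  have h1 : str W X (p * (l * x)) = str W X (x * p * l) := by
    rw [← mul_assoc, str_comm (kop_degZ (kop_mul hp.1 hL.lm)), ← mul_assoc]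
  have h2 : x * p * (dgr W X * e) = (m : W.K) • (x * p * e) := by
    rw [← mul_assoc, ← dgr_comm hxp, ← mul_assoc, dgr_comm hx, mul_assoc x, hp.dgr_mul,
      mul_smul_comm, smul_mul_assoc]
  have h3 : str W X (x * p * e) = str W X (x * p) := by
    have h4 := hL.t1 _ hxp
    rw [mul_sub, mul_one, map_sub, sub_eq_zero] at h4
    exact h4.symm
  rw [h1, ← hL.t2 _ hxp, h2, map_smul, smul_eq_mul, h3, str_comm (kop_degZ hx)]

/-- The orthogonality relation. -/
lemma Pure.str_zero {m : ℕ} {e l p E : Module.End W.K (W.H X)} (hL : LamPair W X e l)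
    (hp : Pure W X m p) (hE : E ∈ KOp W X X 0) (hEE : E * E = E) (hlE : l * E = E * l) {ν : W.K}
    (hnil : IsNilpotent ((l - algebraMap W.K _ ν) * E)) (hν : ν ≠ m) :
    str W X (p * E) = 0 := by
  obtain ⟨n, hn⟩ := hnil
  obtain ⟨t, ht⟩ : ∃ t, t = l - algebraMap W.K (Module.End W.K (W.H X)) ν := ⟨_, rfl⟩
  have htm : t ∈ KOp W X X 0 := by
    rw [ht, Algebra.algebraMap_eq_smul_one]
    exact Submodule.sub_mem _ hL.lm (Submodule.smul_mem _ _ (KOp.id X))
  have htE : t * E = E * t := by rw [ht, sub_mul, mul_sub, hlE, Algebra.commutes]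
  have hpow : ∀ n : ℕ, t ^ n * E ∈ KOp W X X 0 := by
    intro n
    induction n with
    | zero => rw [pow_zero, one_mul]; exact hE
    | succ n ih => rw [pow_succ', mul_assoc]; exact kop_mul htm ih
  have hpow' : ∀ n : ℕ, (t * E) ^ n * E = t ^ n * E := by
    intro n
    have h1 : Commute t E := htE
    rw [h1.mul_pow, mul_assoc]
    congr 1
    induction n with
    | zero => rw [pow_zero, one_mul]
    | succ n ih => rw [pow_succ', mul_assoc, ih, hEE]
  have key : ∀ n : ℕ, str W X (p * (t ^ n * E)) = ((m : W.K) - ν) ^ n * str W X (p * E) := by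
    intro n
    induction n with
    | zero => rw [pow_zero, one_mul, pow_zero, one_mul]
    | succ n ih =>
      have h1 : t ^ (n + 1) * E = l * (t ^ n * E) - ν • (t ^ n * E) := by
        obtain ⟨y, hy⟩ : ∃ y, y = t ^ n * E := ⟨_, rfl⟩
        rw [pow_succ', mul_assoc, ← hy, ht, sub_mul, ← Algebra.smul_def]
      rw [h1, mul_sub, map_sub, hp.str_l hL (hpow n), mul_smul_comm, map_smul, ih, smul_eq_mul,
        pow_succ]
      ring
  have h2 := key n
  rw [← hpow' n, ht, hn, zero_mul, mul_zero, map_zero] at h2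
  exact (mul_eq_zero.1 h2.symm).resolve_left (pow_ne_zero _ (sub_ne_zero.2 (Ne.symm hν)))

section pcs

variable {e l : Module.End W.K (W.H X)} {ι : Type v} [Fintype ι] {j : ι → ℕ} {μ : ι → W.K}
  {G : ι → Module.End W.K (W.H X)}

lemma Pcs.fib_nil (h : Pcs W X e l j μ G) (ν : W.K) :
    IsNilpotent ((l - algebraMap W.K _ ν) * fib μ G ν) := by
  classical
  unfold fib
  rw [Finset.mul_sum]
  have hcomm : ∀ i, (l - algebraMap W.K (Module.End W.K (W.H X)) ν) * G i =
      G i * (l - algebraMap W.K _ ν) := by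
    intro i
    rw [sub_mul, mul_sub, h.comm, Algebra.commutes]
  apply Commute.isNilpotent_sum
  · intro i hi
    rw [Finset.mem_filter] at hi
    rw [← hi.2]
    exact h.nil i
  · intro i i' _ _
    by_cases hii : i = i'
    · subst hii; exact Commute.refl _
    · change _ * _ = _ * _
      rw [hcomm i, hcomm i', mul_assoc, ← mul_assoc _ (G i'), hcomm i', mul_assoc (G i'),
        ← mul_assoc (G i), h.orth _ _ hii, zero_mul, mul_assoc (G i'), ← mul_assoc _ (G i), hcomm i,
        mul_assoc (G i), ← mul_assoc (G i'), h.orth _ _ (Ne.symm hii), zero_mul]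

lemma Pcs.fib_comm (h : Pcs W X e l j μ G) (ν : W.K) : l * fib μ G ν = fib μ G ν * l := by
  classical
  unfold fib
  rw [Finset.mul_sum, Finset.sum_mul]
  exact Finset.sum_congr rfl fun i _ => h.comm i

/-- Pure operators are orthogonal to the complement of the fibre. -/
lemma Pcs.str_compl (hL : LamPair W X e l) (h : Pcs W X e l j μ G) {m : ℕ}
    {p : Module.End W.K (W.H X)} (hp : Pure W X m p) :
    str W X (p * (1 - fib μ G m)) = 0 := by
  classical
  obtain ⟨S, hS1, hS2⟩ := sum_fib μ G
  have h1 : (1 : Module.End W.K (W.H X)) - fib μ G m =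
      (1 - e) + ∑ ν ∈ S.erase (m : W.K), fib μ G ν := by
    rw [← h.sum, ← hS2]
    by_cases hm : (m : W.K) ∈ S
    · rw [← Finset.add_sum_erase S _ hm]
      abel
    · rw [hS1 _ hm, Finset.erase_eq_of_notMem hm]
      abel
  rw [h1, mul_add, map_add, hL.t1 p hp.1, zero_add, Finset.mul_sum, map_sum]
  apply Finset.sum_eq_zero
  intro ν hν
  exact hp.str_zero hL (h.mem ν) (fib_mul h.idem h.orth ν) (h.fib_comm ν) (h.fib_nil ν)
    (Finset.ne_of_mem_erase hν)

open scoped Classical in
/-- **The bound in one degree.** -/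
theorem Pcs.rank_le (hL : LamPair W X e l) (h : Pcs W X e l j μ G) {m : ℕ}
    {p : Module.End W.K (W.H X)} (hp : Pure W X m p) (hpp : p * p = p) :
    finrank W.K (LinearMap.range p) ≤
      ∑ i with j i = m ∧ μ i = (m : W.K), finrank W.K (LinearMap.range (G i)) := by
  obtain ⟨E, hE⟩ : ∃ E, E = fib μ G (m : W.K) := ⟨_, rfl⟩
  have hEm : E ∈ KOp W X X 0 := by rw [hE]; exact h.mem _
  have hqm : (1 - E) ∈ KOp W X X 0 := Submodule.sub_mem _ (KOp.id X) hEm
  obtain ⟨F, hF⟩ : ∃ F, F = ∑ i with j i = m ∧ μ i = (m : W.K), G i := ⟨_, rfl⟩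
  have hFE : F = proj (W.isInternal X) m * E := by
    rw [hF, hE]
    unfold fib
    rw [Finset.mul_sum, Finset.sum_filter, Finset.sum_filter]
    apply Finset.sum_congr rfl
    intro i _
    by_cases h1 : μ i = (m : W.K)
    · by_cases h2 : j i = m
      · rw [if_pos ⟨h2, h1⟩, if_pos h1]
        apply LinearMap.ext
        intro x
        rw [Module.End.mul_apply, proj_same _ (h2 ▸ h.deg i x)]
      · rw [if_neg (fun h3 => h2 h3.1), if_pos h1]
        apply LinearMap.ext
        intro x
        rw [Module.End.mul_apply, proj_ne _ (h.deg i x) h2, LinearMap.zero_apply]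
    · rw [if_neg (fun h3 => h1 h3.2), if_neg h1]
  have hrank : finrank W.K (LinearMap.range F) =
      ∑ i with j i = m ∧ μ i = (m : W.K), finrank W.K (LinearMap.range (G i)) := by
    have hFF : F * F = F := by
      rw [hF, Finset.sum_mul]
      apply Finset.sum_congr rfl
      intro i hi
      rw [Finset.mul_sum, Finset.sum_eq_single i]
      · exact h.idem i
      · intro i' _ hne
        exact h.orth i i' (Ne.symm hne)
      · intro hh
        exact absurd hi hh
    have h1 := N536.HK.trace_idem hFF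
    rw [hF, map_sum, Finset.sum_congr rfl (fun i _ => N536.HK.trace_idem (h.idem i)), ← hF] at h1
    have h2 : ((∑ i with j i = m ∧ μ i = (m : W.K), finrank W.K (LinearMap.range (G i)) : ℕ) :
        W.K) = (finrank W.K (LinearMap.range F) : W.K) := by
      rw [← h1]
      push_cast
      rfl
    exact_mod_cast h2.symm
  rw [← hrank]
  have hnil : IsNilpotent ((1 - F) * p) := by
    have h1 : (1 - F) * p = (1 - E) * p := by
      have h6 : proj (W.isInternal X) m * E = E * proj (W.isInternal X) m :=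
        (kop_degZ hEm).comm _
      rw [sub_mul, sub_mul, hFE, h6, mul_assoc, hp.proj_mul]
    rw [h1]
    apply isNilpotent_of_trace_pow
    intro r
    have hmem : ∀ r : ℕ, ((1 - E) * p) ^ r ∈ KOp W X X 0 := by
      intro r
      induction r with
      | zero => exact KOp.id X
      | succ r ih => rw [pow_succ]; exact kop_mul ih (kop_mul hqm hp.1)
    have h2 : Pure W X m (p * ((1 - E) * p) ^ r) := hp.mul_right (hmem r)
    have h3 := h.str_compl hL h2
    rw [← hE, str_apply, ← mul_assoc, h2.par_mul, smul_mul_assoc, map_smul, smul_eq_mul] at h3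
    have h4 := (mul_eq_zero.1 h3).resolve_left (pow_ne_zero _ (by norm_num))
    rw [pow_succ', mul_assoc, LinearMap.trace_mul_comm, h4]
  have h5 := rank_le_of_nilpotent hpp hnil
  rwa [sub_sub_cancel] at h5

end pcs

end Pool.Agent.Zk50.ZO
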