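import Mathlib

/-!
# Linear algebra: representing forms, and polynomial projectors onto generalised eigenspaces
-/

set_option autoImplicit false

open Polynomial

namespace Pool.Agent.Zk50.ZO

section rep

variable {K A : Type*} [Field K] [AddCommGroup A] [Module K A] [FiniteDimensional K A]

/-- A linear form which vanishes on the right kernel of a bilinear form is represented. -/
lemma exists_rep (B : A →ₗ[K] A →ₗ[K] K) (δ : A →ₗ[K] K)
    (h : ∀ x, (∀ a, B a x = 0) → δ x = 0) : ∃ l, ∀ x, δ x = B l x := by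
  have h1 : δ ∈ LinearMap.range B := by
    have h2 : (LinearMap.range B) = (LinearMap.range B).dualCoannihilator.dualAnnihilator :=
      (Subspace.dualCoannihilator_dualAnnihilator_eq).symm
    rw [h2, Submodule.mem_dualAnnihilator]
    intro x hx
    rw [Submodule.mem_dualCoannihilator] at hx
    exact h x fun a => hx _ (LinearMap.mem_range_self B a)
  obtain ⟨l, hl⟩ := h1
  exact ⟨l, fun x => by rw [hl]⟩

end rep

section eig

variable {K V : Type*} [Field K] [AddCommGroup V] [Module K V]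

/-- The polynomial projectors onto the generalised eigenspaces. -/
theorem exists_eig [IsAlgClosed K] [FiniteDimensional K V] (T : Module.End K V) :
    ∃ (S : Finset K) (g : K → K[X]),
      (∀ μ ∉ S, aeval T (g μ) = 0) ∧
      (∀ μ, aeval T (g μ) * aeval T (g μ) = aeval T (g μ)) ∧
      (∀ μ ν, μ ≠ ν → aeval T (g μ) * aeval T (g ν) = 0) ∧
      ∑ μ ∈ S, aeval T (g μ) = 1 ∧
      ∀ μ, IsNilpotent ((T - algebraMap K _ μ) * aeval T (g μ)) := by
  classical
  obtain ⟨f, hf⟩ : ∃ f, f = minpoly K T := ⟨_, rfl⟩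
  have hf0 : f ≠ 0 := by rw [hf]; exact minpoly.ne_zero (Algebra.IsIntegral.isIntegral T)
  have hfm : f.Monic := by rw [hf]; exact minpoly.monic (Algebra.IsIntegral.isIntegral T)
  have hfT : aeval T f = 0 := by rw [hf]; exact minpoly.aeval K T
  obtain ⟨S, hS⟩ : ∃ S, S = f.roots.toFinset := ⟨_, rfl⟩
  obtain ⟨P, hP⟩ : ∃ P : K → K[X], P = fun μ => (X - C μ) ^ (f.roots.count μ) := ⟨_, rfl⟩
  have hPf : f = ∏ μ ∈ S, P μ := by
    have h1 : f = (f.roots.map fun a => X - C a).prod :=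
      (IsAlgClosed.splits f).eq_prod_roots_of_monic hfm
    conv_lhs => rw [h1]
    rw [Finset.prod_multiset_map_count, hS, hP]
  have hcop : ∀ μ ν, μ ≠ ν → IsCoprime (P μ) (P ν) := by
    intro μ ν hμν
    rw [hP]
    apply IsCoprime.pow
    exact isCoprime_X_sub_C_of_isUnit_sub (isUnit_iff_ne_zero.2 (sub_ne_zero.2 hμν))
  have hex : ∀ μ ∈ S, ∃ a b : K[X], a * P μ + b * (∏ ν ∈ S.erase μ, P ν) = 1 := by
    intro μ hμ
    have h1 : IsCoprime (P μ) (∏ ν ∈ S.erase μ, P ν) := by
      apply IsCoprime.prod_right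
      intro ν hν
      exact hcop μ ν (Ne.symm (Finset.ne_of_mem_erase hν))
    exact h1
  choose! a b hab using hex
  obtain ⟨g, hg⟩ : ∃ g : K → K[X], g = fun μ => if μ ∈ S then b μ * (∏ ν ∈ S.erase μ, P ν)
    else 0 := ⟨_, rfl⟩
  have hgS : ∀ μ ∈ S, g μ = b μ * (∏ ν ∈ S.erase μ, P ν) := by
    intro μ hμ
    rw [hg]
    exact if_pos hμ
  have hgN : ∀ μ, μ ∉ S → g μ = 0 := by
    intro μ hμ
    rw [hg]
    exact if_neg hμ
  have hkill : ∀ q : K[X], f ∣ q → aeval T q = 0 := by
    rintro q ⟨r, rfl⟩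
    rw [map_mul, hfT, zero_mul]
  have hfP : ∀ μ ∈ S, f = P μ * ∏ ν ∈ S.erase μ, P ν := by
    intro μ hμ
    rw [hPf, Finset.mul_prod_erase S P hμ]
  have hdvd : ∀ μ ν, μ ≠ ν → f ∣ g μ * g ν := by
    intro μ ν hμν
    by_cases hμ : μ ∈ S
    · by_cases hν : ν ∈ S
      · rw [hgS μ hμ, hgS ν hν, hfP μ hμ]
        have h1 : P μ ∣ ∏ ν' ∈ S.erase ν, P ν' :=
          Finset.dvd_prod_of_mem P (Finset.mem_erase.2 ⟨hμν, hμ⟩)
        obtain ⟨r, hr⟩ := h1
        rw [hr]
        exact ⟨b μ * (b ν * r), by ring⟩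
      · rw [hgN ν hν, mul_zero]
        exact dvd_zero _
    · rw [hgN μ hμ, zero_mul]
      exact dvd_zero _
  have hidem : ∀ μ, f ∣ g μ * g μ - g μ := by
    intro μ
    by_cases hμ : μ ∈ S
    · have h1 : g μ - 1 = -(a μ * P μ) := by
        rw [hgS μ hμ, ← hab μ hμ]
        ring
      have h2 : g μ * g μ - g μ = g μ * (g μ - 1) := by ring
      rw [h2, h1, hgS μ hμ, hfP μ hμ]
      exact ⟨-(b μ * a μ), by ring⟩
    · rw [hgN μ hμ]
      simp
  refine ⟨S, g, ?_, ?_, ?_, ?_, ?_⟩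
  · intro μ hμ
    rw [hgN μ hμ, map_zero]
  · intro μ
    rw [← map_mul, ← sub_eq_zero, ← map_sub]
    exact hkill _ (hidem μ)
  · intro μ ν h
    rw [← map_mul]
    exact hkill _ (hdvd μ ν h)
  · rw [← map_sum, ← sub_eq_zero, ← map_one (aeval (R := K) T), ← map_sub]
    apply hkill
    rw [hPf]
    apply Finset.prod_dvd_of_coprime
    · intro μ _ ν _ hμν
      exact hcop μ ν hμν
    · intro μ hμ
      rw [← Finset.add_sum_erase S g hμ, add_sub_right_comm]
      apply dvd_add
      · have h1 : g μ - 1 = -(a μ * P μ) := by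
          rw [hgS μ hμ, ← hab μ hμ]
          ring
        rw [h1]
        exact ⟨-a μ, by ring⟩
      · apply Finset.dvd_sum
        intro ν hν
        rw [hgS ν (Finset.mem_of_mem_erase hν)]
        apply dvd_mul_of_dvd_right
        exact Finset.dvd_prod_of_mem P
          (Finset.mem_erase.2 ⟨Ne.symm (Finset.ne_of_mem_erase hν), hμ⟩)
  · intro μ
    by_cases hμ : μ ∈ S
    · obtain ⟨c, hc⟩ : ∃ c, c = f.roots.count μ := ⟨_, rfl⟩
      have hPc : P μ = (X - C μ) ^ c := by rw [hP, hc]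
      have hc0 : c ≠ 0 := by
        rw [hS, Multiset.mem_toFinset] at hμ
        rw [hc]
        exact Multiset.count_ne_zero.2 hμ
      refine ⟨c, ?_⟩
      have h1 : (T - algebraMap K _ μ) * aeval T (g μ) = aeval T ((X - C μ) * g μ) := by
        rw [map_mul, map_sub, aeval_X, aeval_C]
      rw [h1, ← map_pow]
      apply hkill
      rw [mul_pow, hfP μ hμ, hPc]
      apply mul_dvd_mul_left
      refine dvd_trans ?_ (dvd_pow_self _ hc0)
      rw [hgS μ hμ]
      exact dvd_mul_left _ _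
    · rw [hgN μ hμ, map_zero, mul_zero]
      exact IsNilpotent.zero

end eig

end Pool.Agent.Zk50.ZO
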