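import Pool.Agent.N536.HK.Main
import Pool.Agent.H447R3.NumB
import Pool.Agent.Zk50.ZO.Lin

/-!
# The operator representing the degree, and its behaviour in products
-/

set_option autoImplicit false

open CategoryTheory AlgebraicGeometry Finset TensorProduct Module

universe u v

namespace Pool.Agent.Zk50.ZO

open Pool.Agent.H914 VarClass Obj WeilCohomology Pool.Agent.N190.CB Pool.Agent.N103.OC
  Pool.Agent.TH133.PW Pool.Agent.H447 Pool.Agent.N536.SG Pool.Agent.N536.HK

variable {k : Type u} [Field k] {𝒱 : VarClass k} {ops : CycleOps 𝒱}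
  {W : WeilCohomology.{u, v} ops} {X Y Z : 𝒱.Obj}

/-- The degree operator. -/
noncomputable def dgr (W : WeilCohomology.{u, v} ops) (X : 𝒱.Obj) : Module.End W.K (W.H X) :=
  scal (W.isInternal X) (fun i => (i : W.K))

lemma dgr_apply {i : ℕ} {x : W.H X} (hx : x ∈ W.gr X i) : dgr W X x = (i : W.K) • x :=
  scal_apply _ _ hx

/-- Degree preserving operators. -/
def DegZ (W : WeilCohomology.{u, v} ops) (X : 𝒱.Obj) (a : Module.End W.K (W.H X)) : Prop :=
  ∀ i, ∀ x ∈ W.gr X i, a x ∈ W.gr X i

lemma kop_degZ {a : Module.End W.K (W.H X)} (ha : a ∈ KOp W X X 0) : DegZ W X a :=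
  fun i _ hx => kop_gr ha i hx

lemma DegZ.comm {a : Module.End W.K (W.H X)} (ha : DegZ W X a) (f : ℕ → W.K) :
    scal (W.isInternal X) f * a = a * scal (W.isInternal X) f := by
  apply gr_ext (W.isInternal X)
  intro i x hx
  rw [Module.End.mul_apply, Module.End.mul_apply, scal_apply _ _ hx, scal_apply _ _ (ha i x hx),
    map_smul]

lemma DegZ.mul {a b : Module.End W.K (W.H X)} (ha : DegZ W X a) (hb : DegZ W X b) :
    DegZ W X (a * b) := fun i x hx => ha i _ (hb i x hx)

lemma scal_degZ (f : ℕ → W.K) : DegZ W X (scal (W.isInternal X) f) := by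
  intro i x hx
  rw [scal_apply _ _ hx]
  exact Submodule.smul_mem _ _ hx

lemma dgr_comm {a : Module.End W.K (W.H X)} (ha : a ∈ KOp W X X 0) :
    dgr W X * a = a * dgr W X := (kop_degZ ha).comm _

lemma str_comm {a b : Module.End W.K (W.H X)} (ha : DegZ W X a) :
    str W X (a * b) = str W X (b * a) := by
  rw [str_apply, str_apply, ← mul_assoc, par, ha.comm, mul_assoc, LinearMap.trace_mul_comm,
    mul_assoc]

/-- The class of a degree preserving operator. -/
lemma exists_class_of_degZ {a : Module.End W.K (W.H X)} (ha : DegZ W X a) :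
    ∃ g ∈ W.gr (X.prod X) (2 * X.dim), W.corr g = a := by
  obtain ⟨τ, hτ⟩ := exists_corr a
  refine ⟨τ, ?_, hτ⟩
  apply mem_gr_of_isHom
  rw [hτ, sub_self, mul_zero]
  intro i x hx
  rw [add_zero]
  by_cases hi : 0 ≤ i
  · lift i to ℕ using hi
    rw [grZ_natCast] at hx ⊢
    exact ha i x hx
  · rw [grZ_of_neg (by omega)] at hx ⊢
    rw [(Submodule.mem_bot _).1 hx, map_zero]
    exact Submodule.zero_mem _

lemma dgr_prod : dgr W (Y.prod X) = extOp W (dgr W Y) 1 + extOp W 1 (dgr W X) := by
  apply op_ext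
  intro i j a ha b hb
  rw [LinearMap.add_apply, dgr, scal_apply_ext _ ha hb, extOp_tmul, extOp_tmul, dgr_apply ha,
    dgr_apply hb, Module.End.one_apply, Module.End.one_apply, map_smul, map_smul, smul_mul_assoc,
    mul_smul_comm, ← add_smul]
  push_cast
  rfl

/-- `l` represents the degree on the part `e` of the algebra of algebraic operators of degree
zero, and the rest is numerically trivial. -/
structure LamPair (W : WeilCohomology.{u, v} ops) (X : 𝒱.Obj) (e l : Module.End W.K (W.H X)) :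
    Prop where
  em : e ∈ KOp W X X 0
  lm : l ∈ KOp W X X 0
  ee : e * e = e
  el : e * l = l
  le : l * e = l
  t1 : ∀ T ∈ KOp W X X 0, str W X (T * (1 - e)) = 0
  t2 : ∀ T ∈ KOp W X X 0, str W X (T * (dgr W X * e)) = str W X (T * l)

theorem LamPair.prod {e l : Module.End W.K (W.H Y)} {e' l' : Module.End W.K (W.H X)}
    (h : LamPair W Y e l) (h' : LamPair W X e' l') :
    LamPair W (Y.prod X) (extOp W e e') (extOp W l e' + extOp W e l') where
  em := (kop_class W).ext h.em h'.em
  lm := Submodule.add_mem _ ((kop_class W).ext h.lm h'.em) ((kop_class W).ext h.em h'.lm)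
  ee := by rw [extOp_mul, h.ee, h'.ee]
  el := by rw [mul_add, extOp_mul, extOp_mul, h.el, h'.ee, h.ee, h'.el]
  le := by rw [add_mul, extOp_mul, extOp_mul, h.le, h'.ee, h.ee, h'.le]
  t1 T hT := by
    have h1 : (1 : Module.End W.K (W.H (Y.prod X))) - extOp W e e' =
        extOp W (1 - e) 1 + extOp W e (1 - e') := by
      have h2 : (1 : Module.End W.K (W.H (Y.prod X))) = extOp W ((1 - e) + e) 1 := by
        rw [sub_add_cancel, extOp_one]
      have h3 : extOp W e 1 = extOp W e e' + extOp W e (1 - e') := by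
        rw [← extOp_add_right, add_sub_cancel]
      rw [h2, extOp_add_left, h3]
      abel
    rw [h1, mul_add, map_add]
    obtain ⟨A, hA, hA'⟩ := exists_ptrace hT (KOp.id X)
    obtain ⟨B, hB, hB'⟩ := exists_ptrace' hT h.em
    obtain ⟨f, hf⟩ := exists_corr (1 - e)
    obtain ⟨g, hg, hg'⟩ := exists_class_of_degZ (kop_degZ (Submodule.sub_mem _ (KOp.id X) h'.em))
    have h4 := hA' f
    have h5 := hB' hg
    rw [hf] at h4
    rw [hg'] at h5
    change str W (Y.prod X) (T * extOp W (1 - e) 1) = _ at h4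
    change str W (Y.prod X) (T * extOp W e (1 - e')) = str W X (B * (1 - e')) at h5
    rw [h4, h5, h.t1 A (KOp.cast hA (by ring)), h'.t1 B (KOp.cast hB (by ring)), add_zero]
  t2 T hT := by
    have h1 : dgr W (Y.prod X) * extOp W e e' =
        extOp W (dgr W Y * e) e' + extOp W e (dgr W X * e') := by
      rw [dgr_prod, add_mul, extOp_mul, extOp_mul, one_mul, one_mul]
    rw [h1, mul_add, mul_add, map_add, map_add]
    obtain ⟨A, hA, hA'⟩ := exists_ptrace hT h'.em
    obtain ⟨B, hB, hB'⟩ := exists_ptrace' hT h.em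
    congr 1
    · obtain ⟨f, hf⟩ := exists_corr (dgr W Y * e)
      obtain ⟨f', hf'⟩ := exists_corr l
      have h4 := hA' f
      have h5 := hA' f'
      rw [hf] at h4
      rw [hf'] at h5
      rw [h4, h5, h.t2 A (KOp.cast hA (by ring))]
    · obtain ⟨g, hg, hg'⟩ : ∃ g ∈ W.gr (X.prod X) (2 * X.dim), W.corr g = dgr W X * e' :=
        exists_class_of_degZ ((scal_degZ _).mul (kop_degZ h'.em))
      obtain ⟨g2, hg2, hg2'⟩ := exists_class_of_degZ (kop_degZ h'.lm)
      have h4 := hB' hg
      have h5 := hB' hg2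
      rw [hg'] at h4
      rw [hg2'] at h5
      rw [h4, h5, h'.t2 B (KOp.cast hB (by ring))]

/-- The numerically trivial operators. -/
noncomputable def numTriv (W : WeilCohomology.{u, v} ops) (X : 𝒱.Obj) :
    Submodule W.K (Module.End W.K (W.H X)) where
  carrier := {a | a ∈ KOp W X X 0 ∧ ∀ T ∈ KOp W X X 0, str W X (T * a) = 0}
  zero_mem' := ⟨Submodule.zero_mem _, fun T _ => by rw [mul_zero, map_zero]⟩
  add_mem' := fun {a b} ha hb => ⟨Submodule.add_mem _ ha.1 hb.1, fun T hT => by
    rw [mul_add, map_add, ha.2 T hT, hb.2 T hT, add_zero]⟩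
  smul_mem' := fun c a ha => ⟨Submodule.smul_mem _ _ ha.1, fun T hT => by
    rw [mul_smul_comm, map_smul, ha.2 T hT, smul_zero]⟩

lemma numTriv_mul {a b : Module.End W.K (W.H X)} (ha : a ∈ numTriv W X)
    (hb : b ∈ KOp W X X 0) : a * b ∈ numTriv W X :=
  ⟨kop_mul ha.1 hb, fun T hT => by
    rw [← mul_assoc, str_comm (kop_degZ (kop_mul hT ha.1)), ← mul_assoc]
    exact ha.2 _ (kop_mul hb hT)⟩

lemma mul_numTriv {a b : Module.End W.K (W.H X)} (ha : a ∈ numTriv W X)
    (hb : b ∈ KOp W X X 0) : b * a ∈ numTriv W X :=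
  ⟨kop_mul hb ha.1, fun T hT => by
    rw [← mul_assoc]
    exact ha.2 _ (kop_mul hT hb)⟩

theorem exists_lamPair (W : WeilCohomology.{u, v} ops) (X : 𝒱.Obj) :
    ∃ e l, LamPair W X e l ∧ (e = 1 ∨ ∃ f ∈ numTriv W X, f * f = f ∧ f ≠ 0 ∧ e = 1 - f) := by
  obtain ⟨f, hfN, hff, hfmax⟩ := exists_max_idem (numTriv W X)
    fun a ha b hb => numTriv_mul ha hb.1
  obtain ⟨e, he⟩ : ∃ e, e = 1 - f := ⟨_, rfl⟩
  have hem : e ∈ KOp W X X 0 := by
    rw [he]
    exact Submodule.sub_mem _ (KOp.id X) hfN.1
  have hee : e * e = e := by rw [he]; exact idem_compl hff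
  let A : Submodule W.K (Module.End W.K (W.H X)) := KOp W X X 0
  -- the form and the functional
  let B : A →ₗ[W.K] A →ₗ[W.K] W.K :=
    LinearMap.mk₂ W.K (fun a x : A => str W X ((a : Module.End W.K (W.H X)) * x))
      (fun a b c => by rw [Submodule.coe_add, add_mul, map_add])
      (fun c a b => by rw [Submodule.coe_smul, smul_mul_assoc, map_smul])
      (fun a b c => by rw [Submodule.coe_add, mul_add, map_add])
      (fun c a b => by rw [Submodule.coe_smul, mul_smul_comm, map_smul])
  let δ : A →ₗ[W.K] W.K :=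
    { toFun := fun x => str W X (dgr W X * (e * x * e))
      map_add' := fun x y => by
        rw [Submodule.coe_add, mul_add, add_mul, mul_add, map_add]
      map_smul' := fun c x => by
        rw [Submodule.coe_smul, mul_smul_comm, smul_mul_assoc, mul_smul_comm, map_smul]
        rfl }
  have hδ : ∀ x : A, (∀ a, B a x = 0) → δ x = 0 := by
    rintro ⟨x, hx⟩ hB
    have hxN : x ∈ numTriv W X := ⟨hx, fun T hT => hB ⟨T, hT⟩⟩
    obtain ⟨y, hy⟩ : ∃ y, y = e * x * e := ⟨_, rfl⟩
    have hyN : y ∈ numTriv W X := by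
      rw [hy]
      exact numTriv_mul (mul_numTriv hxN hem) hem
    have hey : e * y = y := by rw [hy, ← mul_assoc, ← mul_assoc, hee]
    have hpow : ∀ r : ℕ, y ^ (r + 1) ∈ numTriv W X := by
      intro r
      induction r with
      | zero => rw [zero_add, pow_one]; exact hyN
      | succ r ih => rw [pow_succ]; exact numTriv_mul ih hyN.1
    have hynil : IsNilpotent y := by
      apply isNilpotent_of_trace_pow
      intro r
      have h1 := hfmax _ (hpow r)
      rw [← he, pow_succ', ← mul_assoc, hey, ← pow_succ'] at h1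
      exact h1
    have hDy : IsNilpotent (par (W.isInternal X) * (dgr W X * y)) := by
      have h1 : DegZ W X y := kop_degZ hyN.1
      have hc1 : Commute (dgr W X) y := h1.comm _
      have h2 : IsNilpotent (dgr W X * y) := hc1.isNilpotent_mul_left hynil
      have hc2 : Commute (par (W.isInternal X)) (dgr W X * y) :=
        ((scal_degZ _).mul h1 : DegZ W X (dgr W X * y)).comm _
      exact hc2.isNilpotent_mul_left h2
    have h3 := LinearMap.isNilpotent_trace_of_isNilpotent hDy
    change str W X (dgr W X * (e * x * e)) = 0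
    rw [← hy, str_apply]
    exact h3.eq_zero
  obtain ⟨⟨l₀, hl₀⟩, hl⟩ := exists_rep (K := W.K) (A := A) B δ hδ
  have hl' : ∀ x ∈ KOp W X X 0, str W X (dgr W X * (e * x * e)) = str W X (l₀ * x) :=
    fun x hx => hl ⟨x, hx⟩
  refine ⟨e, e * l₀ * e, ⟨hem, kop_mul (kop_mul hem hl₀) hem, hee, ?_, ?_, ?_, ?_⟩, ?_⟩
  · rw [← mul_assoc, ← mul_assoc, hee]
  · rw [mul_assoc, hee]
  · intro T hT
    rw [he, sub_sub_cancel]
    exact hfN.2 T hT
  · intro T hT
    have h1 : str W X (T * (dgr W X * e)) = str W X (dgr W X * (e * T * e)) := by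
      have h2 : DegZ W X (dgr W X * (e * T)) :=
        (scal_degZ _).mul (kop_degZ (kop_mul hem hT))
      have h6 : dgr W X * (e * T * e) = dgr W X * (e * T) * e := by simp only [mul_assoc]
      have h7 : e * (dgr W X * (e * T)) = dgr W X * (e * T) := by
        rw [← mul_assoc e, ← dgr_comm hem, mul_assoc, ← mul_assoc e, hee]
      rw [str_comm (kop_degZ hT), h6, str_comm h2, h7, mul_assoc]
    have h3 : str W X (T * (e * l₀ * e)) = str W X (l₀ * (e * T * e)) := by
      have h4 : T * (e * l₀ * e) = (T * e) * (l₀ * e) := by simp only [mul_assoc]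
      have h5 : l₀ * (e * T * e) = (l₀ * e) * (T * e) := by simp only [mul_assoc]
      rw [h4, h5, str_comm (kop_degZ (kop_mul hT hem))]
    rw [h1, h3, ← hl' _ (kop_mul (kop_mul hem hT) hem)]
    have h5 : e * (e * T * e) * e = e * T * e := by
      rw [← mul_assoc, ← mul_assoc, hee, mul_assoc (e * T), hee]
    rw [h5]
  · by_cases hf0 : f = 0
    · left
      rw [he, hf0, sub_zero]
    · right
      exact ⟨f, hfN, hff, hf0, he⟩

end Pool.Agent.Zk50.ZO
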