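import Pool.Agent.Zk50.ZO.Base

/-!
# The zero-one law for the Kunneth standard conjecture
-/

set_option autoImplicit false

open CategoryTheory AlgebraicGeometry Finset TensorProduct Module Filter

universe u v

namespace Pool.Agent.Zk50.ZO

open Pool.Agent.H914 VarClass Obj WeilCohomology Pool.Agent.N190.CB Pool.Agent.N103.OC
  Pool.Agent.TH133.PW Pool.Agent.H447 Pool.Agent.N536.SG Pool.Agent.N536.HK Pool.Agent.H578R3

variable {k : Type u} [Field k] {𝒱 : VarClass k} {ops : CycleOps 𝒱}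
  {W : WeilCohomology.{u, v} ops} {X Y Z : 𝒱.Obj}

lemma kunnethC_iff : KunnethC W X ↔ ∀ i, proj (W.isInternal X) i ∈ KOp W X X 0 := by
  unfold KunnethC ProjectorInSpan
  rw [span_cycleOperators0]
  constructor
  · intro h i
    obtain ⟨P, hP, hP'⟩ := h i
    have h1 : P = proj (W.isInternal X) i := by
      apply gr_ext (W.isInternal X)
      intro l a ha
      rw [hP' l a ha]
      split_ifs with hl
      · subst hl; rw [proj_same _ ha]
      · rw [proj_ne _ ha hl]
    rw [← h1]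
    exact hP
  · intro h i
    exact ⟨_, h i, isProjector_proj W X i⟩

/-- The Kunneth conjecture for products. -/
theorem kunnethC_prod (hY : KunnethC W Y) (hX : KunnethC W X) : KunnethC W (Y.prod X) := by
  rw [kunnethC_iff] at *
  exact (kop_class W).proj_prod hY hX

theorem kunnethC_pw (hX : KunnethC W X) (n : ℕ) : KunnethC W (pw X (n + 1)) := by
  induction n with
  | zero => exact hX
  | succ n ih => exact kunnethC_prod ih hX

lemma zero_mem_pureRanks : 0 ∈ pureRanksOf W X := by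
  refine ⟨fun _ => 0, fun m => ⟨Submodule.zero_mem _, mul_zero _, fun _ _ _ _ => rfl⟩, ?_⟩
  symm
  apply Finset.sum_eq_zero
  intro m _
  rw [LinearMap.range_zero, finrank_bot]

lemma pureRanks_le_aux [IsAlgClosed W.K] {r : ℕ} (hr : r ∈ pureRanksOf W X) :
    r ≤ cohDim W X := by
  obtain ⟨e, l, hL, he⟩ := exists_lamPair W X
  obtain ⟨ι, _, j, μ, G, h⟩ := exists_pcs hL
  refine (rank_le_coeff hL h hr).trans ((coeff_le_aug _ _).trans ?_)
  rw [aug_gen hL h]
  exact Submodule.finrank_le _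

instance (W : WeilCohomology.{u, v} ops) :
    IsAlgClosed (baseW W (AlgebraicClosure W.K)).K :=
  inferInstanceAs (IsAlgClosed (AlgebraicClosure W.K))

lemma pureRanks_le {r : ℕ} (hr : r ∈ pureRanksOf W X) : r ≤ cohDim W X := by
  have h1 := pureRanks_le_aux (pureRanks_base (L := AlgebraicClosure W.K) hr)
  rwa [cohDim_base] at h1

/-- The dimension of the largest sum of pure summands. -/
theorem isGreatest_pure (W : WeilCohomology.{u, v} ops) (X : 𝒱.Obj) :
    IsGreatest (pureRanksOf W X) (pureDim W X) :=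
  ⟨Nat.sSup_mem ⟨0, zero_mem_pureRanks⟩ ⟨cohDim W X, fun _ hr => pureRanks_le hr⟩,
    fun _ hr => le_csSup ⟨cohDim W X, fun _ hr => pureRanks_le hr⟩ hr⟩

lemma pureDim_le (W : WeilCohomology.{u, v} ops) (X : 𝒱.Obj) :
    pureDim W X ≤ cohDim W X := pureRanks_le (isGreatest_pure W X).1

/-- **The bound.** -/
theorem pureDim_bound (hC : ¬ KunnethC W X) (n : ℕ) :
    2 * (n + 1 + 1) * pureDim W (pw X (n + 1)) ^ 2 ≤ cohDim W X ^ (2 * (n + 1) + 1) := by
  have h1 : ¬ KunnethC (baseW W (AlgebraicClosure W.K)) X := fun h => hC (kunnethC_of_base h)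
  have h2 := bound_of_not h1 n (pureRanks_base (isGreatest_pure W (pw X (n + 1))).1)
  rwa [cohDim_base] at h2

lemma gr_bot_of_lt' {i : ℕ} (hi : 2 * X.dim + 1 ≤ i) : W.gr X i = ⊥ :=
  W.gr_eq_bot X i (by omega)

lemma cohDim_eq_sum (W : WeilCohomology.{u, v} ops) (X : 𝒱.Obj) :
    cohDim W X = ∑ m ∈ range (2 * X.dim + 1), finrank W.K (W.gr X m) :=
  finrank_eq_sum (W.isInternal X) fun _ hi => gr_bot_of_lt' hi

/-- If the Kunneth conjecture holds, everything is a sum of pure summands. -/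
theorem pureDim_eq (h : KunnethC W X) : pureDim W X = cohDim W X := by
  refine le_antisymm (pureDim_le W X) ((isGreatest_pure W X).2 ?_)
  rw [kunnethC_iff] at h
  refine ⟨fun m => proj (W.isInternal X) m, fun m => ?_, ?_⟩
  · rw [pureSummand_iff]
    exact ⟨⟨h m, fun i hi x hx => proj_ne _ hx hi⟩, proj_mul_proj _ m⟩
  · rw [cohDim_eq_sum]
    apply Finset.sum_congr rfl
    intro m _
    rw [range_proj]

lemma Pure.range_le {m : ℕ} {p : Module.End W.K (W.H X)} (hp : Pure W X m p) :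
    LinearMap.range p ≤ W.gr X m := by
  rintro _ ⟨x, rfl⟩
  refine gr_induction (W.isInternal X) (p := fun x => p x ∈ W.gr X m) ?_ ?_ x
  · intro i a ha
    by_cases hi : i = m
    · subst hi
      exact kop_degZ hp.1 i a ha
    · rw [hp.2 i hi a ha]
      exact Submodule.zero_mem _
  · intro a b ha hb
    rw [map_add]
    exact Submodule.add_mem _ ha hb

/-- If everything is a sum of pure summands, the Kunneth conjecture holds. -/
theorem kunnethC_of_eq (h : pureDim W X = cohDim W X) : KunnethC W X := by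
  obtain ⟨e, he, hr⟩ := (isGreatest_pure W X).1
  rw [h, cohDim_eq_sum] at hr
  have h1 : ∀ m ∈ range (2 * X.dim + 1), finrank W.K (LinearMap.range (e m)) ≤
      finrank W.K (W.gr X m) := fun m _ =>
    Submodule.finrank_mono (pureSummand_iff.1 (he m)).1.range_le
  have h2 := (Finset.sum_eq_sum_iff_of_le h1).1 hr.symm
  intro i
  by_cases hi : i < 2 * X.dim + 1
  · obtain ⟨h3, h4⟩ := pureSummand_iff.1 (he i)
    have h5 : LinearMap.range (e i) = W.gr X i :=
      Submodule.eq_of_le_of_finrank_eq h3.range_le (h2 i (mem_range.2 hi))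
    refine ⟨e i, (he i).1, fun j a ha => ?_⟩
    split_ifs with hj
    · subst hj
      rw [← h5] at ha
      obtain ⟨y, rfl⟩ := ha
      rw [← Module.End.mul_apply, h4]
    · exact (he i).2.2 j hj a ha
  · refine ⟨0, Submodule.zero_mem _, fun j a ha => ?_⟩
    split_ifs with hj
    · subst hj
      rw [gr_bot_of_lt' (by omega), Submodule.mem_bot] at ha
      rw [ha, map_zero]
    · rfl

lemma two_le_cohDim (hC : ¬ KunnethC W X) : 2 ≤ cohDim W X := by
  by_contra hlt
  push Not at hlt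
  have h1 : ∀ i j, i ≠ j → W.gr X i ≠ ⊥ → W.gr X j = ⊥ := by
    intro i j hij hi
    by_contra hj
    have hir : i ∈ range (2 * X.dim + 1) := by
      rw [mem_range]
      by_contra hcon
      exact hi (gr_bot_of_lt' (by omega))
    have hjr : j ∈ range (2 * X.dim + 1) := by
      rw [mem_range]
      by_contra hcon
      exact hj (gr_bot_of_lt' (by omega))
    have h2 : finrank W.K (W.gr X i) ≠ 0 := fun h => hi (Submodule.finrank_eq_zero.1 h)
    have h3 : finrank W.K (W.gr X j) ≠ 0 := fun h => hj (Submodule.finrank_eq_zero.1 h)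
    have h4 : ∑ m ∈ {i, j}, finrank W.K (W.gr X m) ≤
        ∑ m ∈ range (2 * X.dim + 1), finrank W.K (W.gr X m) := by
      apply Finset.sum_le_sum_of_subset
      intro m hm
      rcases Finset.mem_insert.1 hm with rfl | hm
      · exact hir
      · rw [Finset.mem_singleton.1 hm]
        exact hjr
    rw [Finset.sum_pair hij, ← cohDim_eq_sum] at h4
    omega
  apply hC
  intro i
  by_cases hi : W.gr X i = ⊥
  · refine ⟨0, Submodule.zero_mem _, fun j a ha => ?_⟩
    split_ifs with hj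
    · subst hj
      rw [hi, Submodule.mem_bot] at ha
      rw [ha, map_zero]
    · rfl
  · refine ⟨1, ?_, fun j a ha => ?_⟩
    · rw [span_cycleOperators0]
      exact KOp.id X
    · split_ifs with hj
      · rfl
      · rw [h1 i j (Ne.symm hj) hi, Submodule.mem_bot] at ha
        rw [ha, map_zero]

/-- The statement for the rate. -/
theorem kunneth_of_rate {f : ℕ → ℝ}
    (hf : Tendsto (fun y : ℕ => f y * Real.sqrt (Real.log y)) atTop atTop)
    (h : ∀ n₀, ∃ n ≥ n₀, PureShare W (f (cohDim W (pw X n))) (pw X n)) : KunnethC W X := by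
  by_contra hC
  set b := cohDim W X with hb
  have hb2 : 2 ≤ b := two_le_cohDim hC
  have hbR : (2 : ℝ) ≤ b := by exact_mod_cast hb2
  have h1 : Tendsto (fun n : ℕ => b ^ n) atTop atTop :=
    _root_.tendsto_pow_atTop_atTop_of_one_lt (by omega : 1 < b)
  -- beyond some `n` we have `f(b^n) * sqrt (n log b) > b * sqrt (log b)`
  have hlogb : 0 < Real.log b := Real.log_pos (by linarith)
  set M : ℝ := Real.sqrt b * Real.sqrt (Real.log b) + 1 with hM
  have h2 := (hf.comp h1).eventually_gt_atTop M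
  rw [eventually_atTop] at h2
  obtain ⟨n₀, hn₀⟩ := h2
  obtain ⟨n, hn, hn'⟩ := h (n₀ + 1)
  obtain ⟨n, rfl⟩ : ∃ m, n = m + 1 := ⟨n - 1, by omega⟩
  have h3 := hn₀ (n + 1) (by omega)
  simp only [Function.comp_apply] at h3
  unfold PureShare at hn'
  rw [cohDim_pw, ← hb] at hn'
  have h4 := pureDim_bound hC n
  rw [← hb] at h4
  set c := pureDim W (pw X (n + 1)) with hc
  have h5 : Real.log ((b ^ (n + 1) : ℕ) : ℝ) = (n + 1) * Real.log b := by
    push_cast
    rw [Real.log_pow]
    push_cast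
    ring
  rw [h5, Real.sqrt_mul (by positivity)] at h3
  have h6 : (2 : ℝ) * (n + 1 + 1) * c ^ 2 ≤ (b : ℝ) ^ (2 * (n + 1) + 1) := by exact_mod_cast h4
  -- positivity of f
  have hM0 : 0 < M := by positivity
  have hf0 : 0 < f (b ^ (n + 1)) := by
    by_contra hcon
    push Not at hcon
    have : f (b ^ (n + 1)) * (Real.sqrt (n + 1) * Real.sqrt (Real.log b)) ≤ 0 :=
      mul_nonpos_of_nonpos_of_nonneg hcon (by positivity)
    linarith
  have h7 : f (b ^ (n + 1)) ^ 2 * (n + 1) * 2 ≤ b := by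
    push_cast at hn'
    have h8 : (f (b ^ (n + 1)) * (b : ℝ) ^ (n + 1)) ^ 2 ≤ (c : ℝ) ^ 2 :=
      pow_le_pow_left₀ (by positivity) hn' 2
    have h9 : (f (b ^ (n + 1)) ^ 2 * (n + 1) * 2) * ((b : ℝ) ^ (n + 1)) ^ 2 ≤
        b * ((b : ℝ) ^ (n + 1)) ^ 2 := by
      calc (f (b ^ (n + 1)) ^ 2 * (n + 1) * 2) * ((b : ℝ) ^ (n + 1)) ^ 2
          = 2 * (n + 1) * (f (b ^ (n + 1)) * (b : ℝ) ^ (n + 1)) ^ 2 := by ring
        _ ≤ 2 * (n + 1 + 1) * (c : ℝ) ^ 2 := by gcongr; linarith
        _ ≤ (b : ℝ) ^ (2 * (n + 1) + 1) := h6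
        _ = b * ((b : ℝ) ^ (n + 1)) ^ 2 := by ring
    exact le_of_mul_le_mul_right h9 (by positivity)
  have h8 : (f (b ^ (n + 1)) * Real.sqrt (n + 1)) ^ 2 ≤ b := by
    rw [mul_pow, Real.sq_sqrt (by positivity)]
    nlinarith [mul_nonneg (sq_nonneg (f (b ^ (n + 1)))) (by positivity : (0 : ℝ) ≤ n + 1)]
  have h9 : f (b ^ (n + 1)) * Real.sqrt (n + 1) ≤ Real.sqrt b := Real.le_sqrt_of_sq_le h8
  have h10 : f (b ^ (n + 1)) * (Real.sqrt (n + 1) * Real.sqrt (Real.log b)) ≤
      Real.sqrt b * Real.sqrt (Real.log b) := by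
    rw [← mul_assoc]
    gcongr
  linarith

/-- If the Kunneth conjecture holds, all shares at most one are attained. -/
lemma pureShare_of (h : KunnethC W X) {t : ℝ} (ht : t ≤ 1) : PureShare W t X := by
  unfold PureShare
  rw [pureDim_eq h]
  have h2 : (0 : ℝ) ≤ cohDim W X := by positivity
  nlinarith

/-- **The zero-one law.** -/
theorem zeroOne (W : WeilCohomology.{u, v} ops) {f : ℕ → ℝ} (hf1 : ∀ y, f y ≤ 1)
    (hf : Tendsto (fun y : ℕ => f y * Real.sqrt (Real.log y)) atTop atTop) :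
    (∀ X : 𝒱.Obj, KunnethC W X ↔
      ∀ n₀, ∃ n ≥ n₀, PureShare W (f (cohDim W (pw X n))) (pw X n)) ∧
    ((∀ Y : 𝒱.Obj, KunnethC W Y) ↔ ∀ Y : 𝒱.Obj, PureShare W (f (cohDim W Y)) Y) := by
  refine ⟨fun X => ⟨fun h n₀ => ⟨n₀ + 1, Nat.le_succ _, pureShare_of (kunnethC_pw h n₀) (hf1 _)⟩,
    fun h => kunneth_of_rate hf h⟩, fun h Y => pureShare_of (h Y) (hf1 _),
    fun h X => kunneth_of_rate hf fun n₀ => ⟨n₀, le_rfl, h _⟩⟩

end Pool.Agent.Zk50.ZO
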