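import Pool.Agent.Zk50.ZO.Geo

/-!
# Decompositions into generalised eigenspaces of the operator representing the degree
-/

set_option autoImplicit false

open CategoryTheory AlgebraicGeometry Finset TensorProduct Module

universe u v

namespace Pool.Agent.Zk50.ZO

open Pool.Agent.H914 VarClass Obj WeilCohomology Pool.Agent.N190.CB Pool.Agent.N103.OC
  Pool.Agent.TH133.PW Pool.Agent.H447 Pool.Agent.N536.SG Pool.Agent.N536.HK

open scoped Classical in
/-- The sum of the `G i` with `μ i = ν`. -/
noncomputable def fib {K V ι : Type*} [AddCommMonoid V] [Fintype ι] (μ : ι → K) (G : ι → V)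
    (ν : K) : V := ∑ i with μ i = ν, G i

section lin

variable {K V : Type*} [Field K] [AddCommGroup V] [Module K V]

lemma fib_mul {ι : Type*} [Fintype ι] {μ : ι → K} {G : ι → Module.End K V}
    (hi : ∀ i, G i * G i = G i) (ho : ∀ i i', i ≠ i' → G i * G i' = 0) (ν : K) :
    fib μ G ν * fib μ G ν = fib μ G ν := by
  classical
  unfold fib
  rw [Finset.sum_mul]
  apply Finset.sum_congr rfl
  intro i hi'
  rw [Finset.mul_sum, Finset.sum_eq_single i]
  · exact hi i
  · intro i' _ hne
    exact ho i i' (Ne.symm hne)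
  · intro h
    exact absurd hi' h

lemma fib_mul_ne {ι : Type*} [Fintype ι] {μ : ι → K} {G : ι → Module.End K V}
    (ho : ∀ i i', i ≠ i' → G i * G i' = 0) {ν ν' : K} (h : ν ≠ ν') :
    fib μ G ν * fib μ G ν' = 0 := by
  classical
  unfold fib
  rw [Finset.sum_mul]
  apply Finset.sum_eq_zero
  intro i hi
  rw [Finset.mul_sum]
  apply Finset.sum_eq_zero
  intro i' hi'
  rw [Finset.mem_filter] at hi hi'
  apply ho
  rintro rfl
  exact h (hi.2.symm.trans hi'.2)

lemma sum_fib {ι : Type*} [Fintype ι] (μ : ι → K) (G : ι → Module.End K V) :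
    ∃ S : Finset K, (∀ ν ∉ S, fib μ G ν = 0) ∧ ∑ ν ∈ S, fib μ G ν = ∑ i, G i := by
  classical
  refine ⟨Finset.univ.image μ, ?_, ?_⟩
  · intro ν hν
    unfold fib
    rw [Finset.filter_eq_empty_iff.2, Finset.sum_empty]
    intro i _ h
    exact hν (Finset.mem_image.2 ⟨i, Finset.mem_univ i, h⟩)
  · unfold fib
    have h1 := Finset.sum_fiberwise_of_maps_to (s := (Finset.univ : Finset ι))
      (t := Finset.univ.image μ) (g := μ) (fun i _ => Finset.mem_image_of_mem μ (Finset.mem_univ i)) G
    rw [← h1]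

end lin

variable {k : Type u} [Field k] {𝒱 : VarClass k} {ops : CycleOps 𝒱}
  {W : WeilCohomology.{u, v} ops} {X Y Z : 𝒱.Obj}

/-- A decomposition of the idempotent `e` into mutually orthogonal idempotents `G i`, of degree `j i`
and generalised eigenvalue `μ i` for `l`, such that the sums of the `G i` with a given eigenvalue are
algebraic. -/
structure Pcs (W : WeilCohomology.{u, v} ops) (X : 𝒱.Obj) (e l : Module.End W.K (W.H X))
    {ι : Type v} [Fintype ι] (j : ι → ℕ) (μ : ι → W.K) (G : ι → Module.End W.K (W.H X)) :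
    Prop where
  idem : ∀ i, G i * G i = G i
  orth : ∀ i i', i ≠ i' → G i * G i' = 0
  sum : ∑ i, G i = e
  deg : ∀ i x, G i x ∈ W.gr X (j i)
  degZ : ∀ i, DegZ W X (G i)
  mem : ∀ ν, fib μ G ν ∈ KOp W X X 0
  comm : ∀ i, l * G i = G i * l
  nil : ∀ i, IsNilpotent ((l - algebraMap W.K _ (μ i)) * G i)

/-- Pieces of the wrong degree vanish. -/
lemma apply_eq_zero_of_deg {G : Module.End W.K (W.H X)} {j : ℕ} (hG : ∀ x, G x ∈ W.gr X j)
    (hZ : DegZ W X G) {i : ℕ} (hij : i ≠ j) {x : W.H X} (hx : x ∈ W.gr X i) : G x = 0 := by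
  have h1 := proj_ne (W.isInternal X) (hG x) (Ne.symm hij)
  rwa [proj_same (W.isInternal X) (hZ i x hx)] at h1

lemma extOp_deg {G : Module.End W.K (W.H Y)} {G' : Module.End W.K (W.H X)} {j j' : ℕ}
    (h : ∀ x, G x ∈ W.gr Y j) (h' : ∀ x, G' x ∈ W.gr X j') (x : W.H (Y.prod X)) :
    extOp W G G' x ∈ W.gr (Y.prod X) (j + j') := by
  refine W.kunneth_induction (p := fun x => extOp W G G' x ∈ W.gr (Y.prod X) (j + j')) ?_ ?_ x
  · intro a b ha hb
    rw [map_add]
    exact Submodule.add_mem _ ha hb
  · intro i i' a _ b _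
    rw [extOp_tmul]
    exact W.mul_mem (W.map_mem _ (h a)) (W.map_mem _ (h' b))

lemma gr_prod_sum {m : ℕ} {x : W.H (Y.prod X)} (hx : x ∈ W.gr (Y.prod X) m)
    {G : Module.End W.K (W.H (Y.prod X))}
    (h : ∀ i i', ∀ a ∈ W.gr Y i, ∀ b ∈ W.gr X i',
      G (W.map (fst Y X) a * W.map (snd Y X) b) ∈ W.gr (Y.prod X) (i + i')) :
    G x ∈ W.gr (Y.prod X) m := by
  have h1 : ∀ x, G (proj (W.isInternal (Y.prod X)) m x) ∈ W.gr (Y.prod X) m := by
    intro x
    refine W.kunneth_induction (p := fun x => G (proj (W.isInternal (Y.prod X)) m x) ∈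
      W.gr (Y.prod X) m) ?_ ?_ x
    · intro a b ha hb
      rw [map_add, map_add]
      exact Submodule.add_mem _ ha hb
    · intro i i' a ha b hb
      have h2 : W.map (fst Y X) a * W.map (snd Y X) b ∈ W.gr (Y.prod X) (i + i') :=
        W.mul_mem (W.map_mem _ ha) (W.map_mem _ hb)
      by_cases hm : i + i' = m
      · subst hm
        rw [proj_same _ h2]
        exact h i i' a ha b hb
      · rw [proj_ne _ h2 hm, map_zero]
        exact Submodule.zero_mem _
  have h2 := h1 x
  rwa [proj_same _ hx] at h2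

lemma extOp_degZ {G : Module.End W.K (W.H Y)} {G' : Module.End W.K (W.H X)}
    (h : DegZ W Y G) (h' : DegZ W X G') : DegZ W (Y.prod X) (extOp W G G') := by
  intro m x hx
  apply gr_prod_sum hx
  intro i i' a ha b hb
  rw [extOp_tmul]
  exact W.mul_mem (W.map_mem _ (h i a ha)) (W.map_mem _ (h' i' b hb))

lemma extOp_algebraMap (a b : W.K) (G : Module.End W.K (W.H Y)) (G' : Module.End W.K (W.H X)) :
    algebraMap W.K _ (a + b) * extOp W G G' = extOp W (algebraMap W.K _ a * G) G' +
      extOp W G (algebraMap W.K _ b * G') := by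
  rw [← Algebra.smul_def, ← Algebra.smul_def, ← Algebra.smul_def, extOp_smul_left,
    extOp_smul_right, ← add_smul]

lemma extOp_isNilpotent_left {A : Module.End W.K (W.H Y)} (B : Module.End W.K (W.H X))
    (h : IsNilpotent A) : IsNilpotent (extOp W A B) := by
  obtain ⟨n, hn⟩ := h
  refine ⟨n, ?_⟩
  have h1 : ∀ n : ℕ, extOp W A B ^ n = extOp W (A ^ n) (B ^ n) := by
    intro n
    induction n with
    | zero => rw [pow_zero, pow_zero, pow_zero, extOp_one]
    | succ n ih => rw [pow_succ, ih, extOp_mul, pow_succ, pow_succ]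
  rw [h1, hn, extOp_zero_left]

lemma extOp_isNilpotent_right (A : Module.End W.K (W.H Y)) {B : Module.End W.K (W.H X)}
    (h : IsNilpotent B) : IsNilpotent (extOp W A B) := by
  obtain ⟨n, hn⟩ := h
  refine ⟨n, ?_⟩
  have h1 : ∀ n : ℕ, extOp W A B ^ n = extOp W (A ^ n) (B ^ n) := by
    intro n
    induction n with
    | zero => rw [pow_zero, pow_zero, pow_zero, extOp_one]
    | succ n ih => rw [pow_succ, ih, extOp_mul, pow_succ, pow_succ]
  rw [h1, hn, extOp_zero_right]

theorem Pcs.prod {e l : Module.End W.K (W.H Y)} {e' l' : Module.End W.K (W.H X)}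
    {ι ι' : Type v} [Fintype ι] [Fintype ι'] {j : ι → ℕ} {j' : ι' → ℕ} {μ : ι → W.K}
    {μ' : ι' → W.K} {G : ι → Module.End W.K (W.H Y)} {G' : ι' → Module.End W.K (W.H X)}
    (h : Pcs W Y e l j μ G) (h' : Pcs W X e' l' j' μ' G') :
    Pcs W (Y.prod X) (extOp W e e') (extOp W l e' + extOp W e l')
      (fun z : ι × ι' => j z.1 + j' z.2) (fun z => μ z.1 + μ' z.2)
      (fun z => extOp W (G z.1) (G' z.2)) where
  idem z := by rw [extOp_mul, h.idem, h'.idem]
  orth z z' hzz := by
    rw [extOp_mul]
    by_cases h1 : z.1 = z'.1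
    · have h2 : z.2 ≠ z'.2 := fun h2 => hzz (Prod.ext h1 h2)
      rw [h'.orth _ _ h2, extOp_zero_right]
    · rw [h.orth _ _ h1, extOp_zero_left]
  sum := by
    rw [Fintype.sum_prod_type]
    simp_rw [← extOp_sum']
    rw [← extOp_sum, h.sum, h'.sum]
  deg z x := extOp_deg (h.deg z.1) (h'.deg z.2) x
  degZ z := extOp_degZ (h.degZ z.1) (h'.degZ z.2)
  mem ν := by
    classical
    have h1 : fib (fun z : ι × ι' => μ z.1 + μ' z.2) (fun z => extOp W (G z.1) (G' z.2)) ν =
        ∑ ν' ∈ Finset.univ.image μ, extOp W (fib μ G ν') (fib μ' G' (ν - ν')) := by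
      have h2 : fib (fun z : ι × ι' => μ z.1 + μ' z.2) (fun z => extOp W (G z.1) (G' z.2)) ν =
          ∑ i, extOp W (G i) (fib μ' G' (ν - μ i)) := by
        unfold fib
        rw [Finset.sum_filter, Fintype.sum_prod_type]
        apply Finset.sum_congr rfl
        intro i _
        rw [extOp_sum', Finset.sum_filter]
        apply Finset.sum_congr rfl
        intro i' _
        by_cases h3 : μ i + μ' i' = ν
        · rw [if_pos h3, if_pos (eq_sub_of_add_eq' h3)]
        · rw [if_neg h3, if_neg]
          intro h4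
          exact h3 (by rw [h4, add_sub_cancel])
      rw [h2, ← Finset.sum_fiberwise_of_maps_to (s := (Finset.univ : Finset ι))
        (t := Finset.univ.image μ) (g := μ)
        (fun i _ => Finset.mem_image_of_mem μ (Finset.mem_univ i))]
      apply Finset.sum_congr rfl
      intro ν' _
      rw [fib, extOp_sum]
      apply Finset.sum_congr (by congr)
      intro i hi
      rw [Finset.mem_filter] at hi
      rw [hi.2]
    rw [h1]
    exact Submodule.sum_mem _ fun ν' _ => (kop_class W).ext (h.mem ν') (h'.mem (ν - ν'))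
  comm z := by
    have h1 : e * G z.1 = G z.1 * e := by
      rw [← h.sum, Finset.sum_mul, Finset.mul_sum, Finset.sum_eq_single z.1,
        Finset.sum_eq_single z.1]
      · intro i _ hi
        exact h.orth _ _ (Ne.symm hi)
      · intro hi
        exact absurd (Finset.mem_univ _) hi
      · intro i _ hi
        exact h.orth _ _ hi
      · intro hi
        exact absurd (Finset.mem_univ _) hi
    have h2 : e' * G' z.2 = G' z.2 * e' := by
      rw [← h'.sum, Finset.sum_mul, Finset.mul_sum, Finset.sum_eq_single z.2,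
        Finset.sum_eq_single z.2]
      · intro i _ hi
        exact h'.orth _ _ (Ne.symm hi)
      · intro hi
        exact absurd (Finset.mem_univ _) hi
      · intro i _ hi
        exact h'.orth _ _ hi
      · intro hi
        exact absurd (Finset.mem_univ _) hi
    rw [add_mul, mul_add, extOp_mul, extOp_mul, extOp_mul, extOp_mul, h.comm, h'.comm, h1, h2]
  nil z := by
    have h1 : e * G z.1 = G z.1 := by
      rw [← h.sum, Finset.sum_mul, Finset.sum_eq_single z.1]
      · exact h.idem _
      · intro i _ hi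
        exact h.orth _ _ hi
      · intro hi
        exact absurd (Finset.mem_univ _) hi
    have h2 : e' * G' z.2 = G' z.2 := by
      rw [← h'.sum, Finset.sum_mul, Finset.sum_eq_single z.2]
      · exact h'.idem _
      · intro i _ hi
        exact h'.orth _ _ hi
      · intro hi
        exact absurd (Finset.mem_univ _) hi
    have h3 : (extOp W l e' + extOp W e l' - algebraMap W.K _ (μ z.1 + μ' z.2)) *
        extOp W (G z.1) (G' z.2) =
        extOp W ((l - algebraMap W.K _ (μ z.1)) * G z.1) (G' z.2) +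
        extOp W (G z.1) ((l' - algebraMap W.K _ (μ' z.2)) * G' z.2) := by
      have h4 : extOp W ((l - algebraMap W.K _ (μ z.1)) * G z.1) (G' z.2) =
          extOp W (l * G z.1) (G' z.2) - extOp W (algebraMap W.K _ (μ z.1) * G z.1) (G' z.2) := by
        rw [eq_sub_iff_add_eq, ← extOp_add_left, sub_mul, sub_add_cancel]
      have h5 : extOp W (G z.1) ((l' - algebraMap W.K _ (μ' z.2)) * G' z.2) =
          extOp W (G z.1) (l' * G' z.2) -
            extOp W (G z.1) (algebraMap W.K _ (μ' z.2) * G' z.2) := by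
        rw [eq_sub_iff_add_eq, ← extOp_add_right, sub_mul, sub_add_cancel]
      rw [sub_mul, add_mul, extOp_algebraMap, extOp_mul, extOp_mul, h1, h2, h4, h5]
      abel
    have hc : ∀ (G : Module.End W.K (W.H Y)) (l : Module.End W.K (W.H Y)) (a : W.K),
        G * G = G → l * G = G * l → Commute G ((l - algebraMap W.K _ a) * G) := by
      intro G l a hGG hlG
      have h6 : (l - algebraMap W.K _ a) * G = G * (l - algebraMap W.K _ a) := by
        rw [sub_mul, mul_sub, hlG, Algebra.commutes]
      change G * ((l - algebraMap W.K _ a) * G) = ((l - algebraMap W.K _ a) * G) * G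
      rw [h6, ← mul_assoc, hGG, mul_assoc, h6, ← mul_assoc, hGG]
    have hc' : ∀ (G : Module.End W.K (W.H X)) (l : Module.End W.K (W.H X)) (a : W.K),
        G * G = G → l * G = G * l → Commute G ((l - algebraMap W.K _ a) * G) := by
      intro G l a hGG hlG
      have h6 : (l - algebraMap W.K _ a) * G = G * (l - algebraMap W.K _ a) := by
        rw [sub_mul, mul_sub, hlG, Algebra.commutes]
      change G * ((l - algebraMap W.K _ a) * G) = ((l - algebraMap W.K _ a) * G) * G
      rw [h6, ← mul_assoc, hGG, mul_assoc, h6, ← mul_assoc, hGG]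
    rw [h3]
    apply Commute.isNilpotent_add
    · change _ * _ = _ * _
      rw [extOp_mul, extOp_mul, (hc _ _ _ (h.idem _) (h.comm _)).eq,
        (hc' _ _ _ (h'.idem _) (h'.comm _)).eq]
    · exact extOp_isNilpotent_left _ (h.nil _)
    · exact extOp_isNilpotent_right _ (h'.nil _)

/-- Membership of polynomials. -/
lemma kop_aeval {l : Module.End W.K (W.H X)} (hl : l ∈ KOp W X X 0) (q : Polynomial W.K) :
    Polynomial.aeval l q ∈ KOp W X X 0 := by
  induction q using Polynomial.induction_on' with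
  | add p q hp hq => rw [map_add]; exact Submodule.add_mem _ hp hq
  | monomial n c =>
    rw [Polynomial.aeval_monomial, ← Algebra.smul_def]
    apply Submodule.smul_mem
    induction n with
    | zero => rw [pow_zero]; exact KOp.id X
    | succ n ih => rw [pow_succ]; exact kop_mul ih hl

lemma aeval_comm' {K A : Type*} [Field K] [Ring A] [Algebra K A] {e l : A} (h : e * l = l * e)
    (q : Polynomial K) : e * Polynomial.aeval l q = Polynomial.aeval l q * e := by
  induction q using Polynomial.induction_on' with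
  | add p q hp hq => rw [map_add, mul_add, add_mul, hp, hq]
  | monomial n c =>
    have h1 : e * l ^ n = l ^ n * e := ((show Commute e l from h).pow_right n).eq
    rw [Polynomial.aeval_monomial, ← mul_assoc, ← Algebra.commutes, mul_assoc, h1, ← mul_assoc]

/-- **Existence.** -/
theorem exists_pcs [IsAlgClosed W.K] {e l : Module.End W.K (W.H X)} (hL : LamPair W X e l) :
    ∃ (ι : Type v) (_ : Fintype ι) (j : ι → ℕ) (μ : ι → W.K)
      (G : ι → Module.End W.K (W.H X)), Pcs W X e l j μ G := by
  classical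
  obtain ⟨S, g, h1, h2, h3, h4, h5⟩ := exists_eig l
  obtain ⟨E, hE⟩ : ∃ E : W.K → Module.End W.K (W.H X), E = fun μ => Polynomial.aeval l (g μ) :=
    ⟨_, rfl⟩
  have hEm : ∀ μ, E μ ∈ KOp W X X 0 := fun μ => by rw [hE]; exact kop_aeval hL.lm _
  have hEZ : ∀ μ, DegZ W X (E μ) := fun μ => kop_degZ (hEm μ)
  have hel : e * l = l * e := by rw [hL.el, hL.le]
  have heE : ∀ μ, e * E μ = E μ * e := by
    intro μ
    rw [hE]
    exact aeval_comm' hel (g μ)
  have hlE : ∀ μ, l * E μ = E μ * l := by
    intro μ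
    rw [hE]
    exact aeval_comm' rfl (g μ)
  have hE1 : ∀ μ, μ ∉ S → E μ = 0 := fun μ hμ => by rw [hE]; exact h1 μ hμ
  have hE2 : ∀ μ, E μ * E μ = E μ := fun μ => by rw [hE]; exact h2 μ
  have hE3 : ∀ μ ν, μ ≠ ν → E μ * E ν = 0 := fun μ ν h => by rw [hE]; exact h3 μ ν h
  have hE4 : ∑ μ ∈ S, E μ = 1 := by rw [hE]; exact h4
  have hE5 : ∀ μ, IsNilpotent ((l - algebraMap W.K _ μ) * E μ) := fun μ => by
    rw [hE]; exact h5 μ
  -- the idempotents `F μ = E μ * e`
  obtain ⟨F, hF⟩ : ∃ F : W.K → Module.End W.K (W.H X), F = fun μ => E μ * e := ⟨_, rfl⟩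
  have hF' : ∀ μ, F μ = E μ * e := fun μ => by rw [hF]
  have hFm : ∀ μ, F μ ∈ KOp W X X 0 := fun μ => by rw [hF']; exact kop_mul (hEm μ) hL.em
  have hFF : ∀ μ, F μ * F μ = F μ := by
    intro μ
    rw [hF', mul_assoc, ← mul_assoc e, heE, mul_assoc (E μ) e e, hL.ee, ← mul_assoc, hE2]
  have hFo : ∀ μ ν, μ ≠ ν → F μ * F ν = 0 := by
    intro μ ν h
    rw [hF', hF', mul_assoc, ← mul_assoc e, heE, mul_assoc (E ν) e e, hL.ee, ← mul_assoc, hE3 μ ν h,
      zero_mul]
  have hFs : ∑ μ ∈ S, F μ = e := by
    simp_rw [hF']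
    rw [← Finset.sum_mul, hE4, one_mul]
  have hlF : ∀ μ, l * F μ = F μ * l := by
    intro μ
    rw [hF', ← mul_assoc, hlE, mul_assoc, mul_assoc, ← hel]
  have hPc : ∀ (i : ℕ) {a : Module.End W.K (W.H X)}, DegZ W X a →
      proj (W.isInternal X) i * a = a * proj (W.isInternal X) i := fun i a ha => ha.comm _
  have hFZ : ∀ μ, DegZ W X (F μ) := fun μ => kop_degZ (hFm μ)
  have hPP : ∀ i : ℕ, proj (W.isInternal X) i * proj (W.isInternal X) i =
      proj (W.isInternal X) i := fun i => proj_mul_proj _ i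
  obtain ⟨N, hN⟩ : ∃ N, N = 2 * X.dim + 1 := ⟨_, rfl⟩
  have hPs : ∑ i : Fin N, proj (W.isInternal X) i = 1 := by
    rw [Fin.sum_univ_eq_sum_range (fun i => proj (W.isInternal X) i) N, hN]
    exact sum_proj (W.isInternal X) W_hbd
  refine ⟨Fin N × S, inferInstance, fun z => z.1, fun z => z.2,
    fun z => proj (W.isInternal X) z.1 * F z.2, ?_, ?_, ?_, ?_, ?_, ?_, ?_, ?_⟩
  · intro z
    rw [mul_assoc, ← mul_assoc (F _), ← hPc _ (hFZ _), mul_assoc, hFF, ← mul_assoc, hPP]
  · intro z z' hzz
    rw [mul_assoc, ← mul_assoc (F _), ← hPc _ (hFZ _), mul_assoc, ← mul_assoc]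
    by_cases hz : z.1 = z'.1
    · have hz2 : (z.2 : W.K) ≠ z'.2 := fun h => hzz (Prod.ext hz (Subtype.ext h))
      rw [hFo _ _ hz2, mul_zero]
    · rw [proj_mul_ne _ (fun h => hz (Fin.ext h)), zero_mul]
  · rw [Fintype.sum_prod_type]
    simp_rw [← Finset.mul_sum]
    rw [← Finset.sum_mul, hPs, one_mul, Finset.sum_coe_sort S F, hFs]
  · intro z x
    exact proj_mem _ _ _
  · intro z
    exact (scal_degZ _).mul (hFZ _)
  · intro ν
    by_cases hν : ν ∈ S
    · have e1 : fib (fun z : Fin N × S => (z.2 : W.K))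
          (fun z => proj (W.isInternal X) z.1 * F z.2) ν = F ν := by
        unfold fib
        rw [Finset.sum_filter, Fintype.sum_prod_type]
        have e2 : ∀ i : Fin N, (∑ y : S, if (y : W.K) = ν then
            proj (W.isInternal X) (i : ℕ) * F y else 0) = proj (W.isInternal X) (i : ℕ) * F ν := by
          intro i
          rw [Finset.sum_eq_single (⟨ν, hν⟩ : S)]
          · exact if_pos rfl
          · intro y _ hy
            exact if_neg (fun h => hy (Subtype.ext h))
          · intro h
            exact absurd (Finset.mem_univ _) h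
        rw [Finset.sum_congr rfl (fun i _ => e2 i), ← Finset.sum_mul, hPs, one_mul]
      rw [e1]
      exact hFm ν
    · have e1 : fib (fun z : Fin N × S => (z.2 : W.K))
          (fun z => proj (W.isInternal X) z.1 * F z.2) ν = 0 := by
        unfold fib
        rw [Finset.sum_filter]
        apply Finset.sum_eq_zero
        intro z _
        exact if_neg (fun h : (z.2 : W.K) = ν => hν (by rw [← h]; exact z.2.2))
      rw [e1]
      exact Submodule.zero_mem _
  · intro z
    rw [← mul_assoc, ← hPc _ (kop_degZ hL.lm), mul_assoc, hlF, ← mul_assoc]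
  · intro z
    have e1 : (l - algebraMap W.K _ (z.2 : W.K)) * (proj (W.isInternal X) z.1 * F z.2) =
        (proj (W.isInternal X) z.1 * e) * ((l - algebraMap W.K _ (z.2 : W.K)) * E z.2) := by
      have e2 : DegZ W X (l - algebraMap W.K _ (z.2 : W.K)) := by
        apply kop_degZ
        rw [Algebra.algebraMap_eq_smul_one]
        exact Submodule.sub_mem _ hL.lm (Submodule.smul_mem _ _ (KOp.id X))
      have e3 : (l - algebraMap W.K _ (z.2 : W.K)) * e = e * (l - algebraMap W.K _ (z.2 : W.K)) := by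
        rw [sub_mul, mul_sub, hel, Algebra.commutes]
      rw [← mul_assoc, ← hPc _ e2, mul_assoc, mul_assoc]
      congr 1
      rw [hF', ← heE, ← mul_assoc, e3, mul_assoc]
    have e4 : Commute (proj (W.isInternal X) z.1 * e)
        ((l - algebraMap W.K _ (z.2 : W.K)) * E z.2) := by
      have e2 : DegZ W X ((l - algebraMap W.K _ (z.2 : W.K)) * E z.2) := by
        apply kop_degZ
        rw [Algebra.algebraMap_eq_smul_one]
        exact kop_mul (Submodule.sub_mem _ hL.lm (Submodule.smul_mem _ _ (KOp.id X))) (hEm _)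
      have e3 : (l - algebraMap W.K _ (z.2 : W.K)) * e = e * (l - algebraMap W.K _ (z.2 : W.K)) := by
        rw [sub_mul, mul_sub, hel, Algebra.commutes]
      apply Commute.mul_left
      · exact hPc _ e2
      · change e * _ = _ * e
        rw [← mul_assoc, ← e3, mul_assoc, heE, ← mul_assoc]
    rw [e1]
    exact e4.isNilpotent_mul_left (hE5 _)

end Pool.Agent.Zk50.ZO
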